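import Pool.Agent.K1H81.HV.Defs

/-!
# The trace of Frobenius on `H²` of the varieties built from hypersurfaces: definitions

`Mon n d` is the set of the monomials of degree `d` in the variables `x_0, …, x_n`, `numPoints c p k` the
number of the points with coordinates in the field with `p ^ k` elements of the hypersurface with the
coefficients `c`, and `GoodReduction c p` says that its reduction modulo `p` is smooth
(`Pool.Agent.K1H81.HV.Defs`).
-/

set_option autoImplicit false

namespace Pool.Agent.K1H81.HW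

open Finset
open Pool.Agent.Y722.HS (Mon)
open Pool.Agent.K1H81.HV (numPoints GoodReduction)

/-- The trace of the `k`-th power of Frobenius at `p` on `H¹(X)`, for the hypersurface `X ⊂ ℙ^{n+1}` with
the coefficients `c`: it is `p ^ k + 1 - #X(𝔽_{p ^ k})` for a curve, and `H¹(X) = 0` for `n ≥ 2`. -/
noncomputable def traceH1 {n d : ℕ} (c : Mon (n + 1) d → ℤ) (p k : ℕ) : ℝ :=
  if n = 1 then (p : ℝ) ^ k + 1 - numPoints c p k else 0

/-- The trace of Frobenius at `p` on the primitive part of `H²(X)`, for the hypersurface `X ⊂ ℙ^{n+1}`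
with the coefficients `c`: it is `#X(𝔽_p) - 1 - p - p²` for a surface, and `0` for `n ≠ 2`. -/
noncomputable def tracePrim {n d : ℕ} (c : Mon (n + 1) d → ℤ) (p : ℕ) : ℝ :=
  if n = 2 then numPoints c p 1 - (1 + p + (p : ℝ) ^ 2) else 0

/-- The multiplicities in `H²(V)`, for `V` built from the hypersurfaces `X_1, …, X_r`: the space
`H²(V)` is the sum of `a i` copies of the primitive part of `H²(X_i)`, of `l i` copies of `Λ²H¹(X_i)`, of
`s i` copies of `Sym²H¹(X_i)`, of `t i j` copies of `H¹(X_i) ⊗ H¹(X_j)` for `i < j`, and of `k` lines on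
which Frobenius at `p` is `p`. -/
structure Shape (r : ℕ) where
  k : ℝ
  a : Fin r → ℝ
  l : Fin r → ℝ
  s : Fin r → ℝ
  t : Fin r → Fin r → ℝ

/-- The trace `b_p(V)` of Frobenius at `p` on `H²(V)`. -/
noncomputable def traceH2 {r : ℕ} {n d : Fin r → ℕ} (V : Shape r)
    (c : (Σ i, Mon (n i + 1) (d i)) → ℤ) (p : ℕ) : ℝ :=
  V.k * p + ∑ i, V.a i * tracePrim (fun μ => c ⟨i, μ⟩) p +
    ∑ i, V.l i * ((traceH1 (fun μ => c ⟨i, μ⟩) p 1 ^ 2 - traceH1 (fun μ => c ⟨i, μ⟩) p 2) / 2) +
    ∑ i, V.s i * ((traceH1 (fun μ => c ⟨i, μ⟩) p 1 ^ 2 + traceH1 (fun μ => c ⟨i, μ⟩) p 2) / 2) +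
    ∑ q : Fin r × Fin r with q.1 < q.2, V.t q.1 q.2 *
      (traceH1 (fun μ => c ⟨q.1, μ⟩) p 1 * traceH1 (fun μ => c ⟨q.2, μ⟩) p 1)

/-- The predicted rank `ρ` of the Néron–Severi group: the sum of `k` and of the `l i` for the curves
`X_i`. -/
noncomputable def rank {r : ℕ} (n : Fin r → ℕ) (V : Shape r) : ℝ :=
  V.k + ∑ i, if n i = 1 then V.l i else 0

/-- The sum of the absolute values of the multiplicities. -/
noncomputable def size {r : ℕ} (V : Shape r) : ℝ :=
  |V.k| + ∑ i, |V.a i| + ∑ i, |V.l i| + ∑ i, |V.s i| +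
    ∑ q : Fin r × Fin r with q.1 < q.2, |V.t q.1 q.2|

/-- All the hypersurfaces `X_i` have good reduction at the prime `p`. -/
def Good {r : ℕ} {n d : Fin r → ℕ} (c : (Σ i, Mon (n i + 1) (d i)) → ℤ) (p : ℕ) : Prop :=
  p.Prime ∧ ∀ i, GoodReduction (fun μ => c ⟨i, μ⟩) p

open Classical in
/-- The sum of `w_p b_p(V) log(p) / p` over the primes `p < T` of good reduction. -/
noncomputable def tateSum {r : ℕ} {n d : Fin r → ℕ} (V : Shape r)
    (c : (Σ i, Mon (n i + 1) (d i)) → ℤ) (w : ℕ → ℝ) (T : ℕ) : ℝ :=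
  ∑ p ∈ range T with Good c p, w p * (traceH2 V c p * Real.log p / p)

/-- The sum of `w_p log p` over the primes `p < T`. -/
noncomputable def thetaSum (w : ℕ → ℝ) (T : ℕ) : ℝ :=
  ∑ p ∈ range T with p.Prime, w p * Real.log p

end Pool.Agent.K1H81.HW
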