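import Pool.Agent.K1H81.HW.Fin

/-!
# The law of large numbers, uniformly in the length of the sum
-/

set_option autoImplicit false
set_option linter.unusedSectionVars false

namespace Pool.Agent.K1H81.HW

open Finset hiding val
open Filter Topology
open Pool.Agent.Y722.HS Pool.Agent.X280.HG Pool.Agent.X280.BP Pool.Agent.X280.UC Pool.Agent.K1H81.HV
open Pool.Agent.Y722.ST (Dat)

section
variable {ι : Type} [Fintype ι] [DecidableEq ι]

/-- The inequality of Markov. -/
theorem markov (H : ℕ) (Φ : (ι → ℤ) → ℝ) (h0 : ∀ c, 0 ≤ Φ c) {C x : ℝ} (hC : EB H Φ ≤ C) (hx : 0 < x)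
    (P : (ι → ℤ) → Prop) (hP : ∀ c, P c → x < Φ c) :
    ({c : ι → ℤ | (∀ μ, |c μ| ≤ H) ∧ P c}.ncard : ℝ) ≤ C / x * (2 * H + 1 : ℝ) ^ Fintype.card ι := by
  classical
  rw [ncard_box]
  have hN : (0 : ℝ) < (2 * H + 1 : ℝ) ^ Fintype.card ι := by positivity
  unfold EB at hC
  rw [div_le_iff₀ hN] at hC
  rw [div_mul_eq_mul_div, le_div_iff₀ hx]
  refine le_trans ?_ hC
  calc (((Pool.Agent.Y722.HS.box ι H).filter P).card : ℝ) * x =
      ∑ c ∈ (Pool.Agent.Y722.HS.box ι H).filter P, x := by rw [Finset.sum_const, nsmul_eq_mul]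
    _ ≤ ∑ c ∈ (Pool.Agent.Y722.HS.box ι H).filter P, Φ c := Finset.sum_le_sum fun c hc =>
        (hP c (Finset.mem_filter.1 hc).2).le
    _ ≤ _ := Finset.sum_le_sum_of_subset_of_nonneg (Finset.filter_subset _ _) fun c _ _ => h0 c

end

section
variable {r : ℕ} {n d : Fin r → ℕ}

/-- The indices of the basic parts of `H²`. -/
abbrev Ix (r : ℕ) := Option (Fin r ⊕ (Fin r ⊕ (Fin r ⊕ (Fin r × Fin r))))

/-- The multiplicities. -/
noncomputable def coef (V : Shape r) : Ix r → ℝ
  | none => V.k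
  | some (Sum.inl i) => V.a i
  | some (Sum.inr (Sum.inl i)) => V.l i
  | some (Sum.inr (Sum.inr (Sum.inl i))) => V.s i
  | some (Sum.inr (Sum.inr (Sum.inr q))) => if q.1 < q.2 then V.t q.1 q.2 else 0

/-- The basic parts. -/
noncomputable def shp : Ix r → Shape r
  | none => ⟨1, 0, 0, 0, 0⟩
  | some (Sum.inl i) => ⟨0, fun j => if j = i then 1 else 0, 0, 0, 0⟩
  | some (Sum.inr (Sum.inl i)) => ⟨0, 0, fun j => if j = i then 1 else 0, 0, 0⟩
  | some (Sum.inr (Sum.inr (Sum.inl i))) => ⟨0, 0, 0, fun j => if j = i then 1 else 0, 0⟩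
  | some (Sum.inr (Sum.inr (Sum.inr q))) => ⟨0, 0, 0, 0, fun i j => if (i, j) = q then 1 else 0⟩

theorem traceH2_lin (V : Shape r) (c : (Σ i, Mon (n i + 1) (d i)) → ℤ) (p : ℕ) :
    traceH2 V c p = ∑ x, coef V x * traceH2 (shp x) c p := by
  classical
  rw [Fintype.sum_option, Fintype.sum_sum_type, Fintype.sum_sum_type, Fintype.sum_sum_type]
  have h0 : traceH2 (shp none) c p = p := by
    simp [traceH2, shp]
  have h1 : ∀ i, traceH2 (shp (some (Sum.inl i))) c p = tracePrim (fun μ => c ⟨i, μ⟩) p := by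
    intro i
    simp [traceH2, shp]
  have h2 : ∀ i, traceH2 (shp (some (Sum.inr (Sum.inl i)))) c p =
      (traceH1 (fun μ => c ⟨i, μ⟩) p 1 ^ 2 - traceH1 (fun μ => c ⟨i, μ⟩) p 2) / 2 := by
    intro i
    simp [traceH2, shp]
  have h3 : ∀ i, traceH2 (shp (some (Sum.inr (Sum.inr (Sum.inl i))))) c p =
      (traceH1 (fun μ => c ⟨i, μ⟩) p 1 ^ 2 + traceH1 (fun μ => c ⟨i, μ⟩) p 2) / 2 := by
    intro i
    simp [traceH2, shp]
  have h4 : ∀ q : Fin r × Fin r, traceH2 (shp (some (Sum.inr (Sum.inr (Sum.inr q))))) c p =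
      if q.1 < q.2 then (traceH1 (fun μ => c ⟨q.1, μ⟩) p 1 * traceH1 (fun μ => c ⟨q.2, μ⟩) p 1)
      else 0 := by
    intro q
    simp only [traceH2, shp, Pi.zero_apply, zero_mul, Finset.sum_const_zero, add_zero, zero_add,
      Prod.mk.eta, ite_mul, one_mul]
    rw [Finset.sum_ite_eq']
    simp only [Finset.mem_filter, Finset.mem_univ, true_and]
  simp only [h0, h1, h2, h3, h4, coef]
  unfold traceH2
  rw [Finset.sum_filter]
  have h5 : ∀ q : Fin r × Fin r, (if q.1 < q.2 then V.t q.1 q.2 *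
      (traceH1 (fun μ => c ⟨q.1, μ⟩) p 1 * traceH1 (fun μ => c ⟨q.2, μ⟩) p 1) else 0) =
      (if q.1 < q.2 then V.t q.1 q.2 else 0) *
      (if q.1 < q.2 then (traceH1 (fun μ => c ⟨q.1, μ⟩) p 1 * traceH1 (fun μ => c ⟨q.2, μ⟩) p 1)
      else 0) := by
    intro q
    split_ifs <;> simp
  rw [Finset.sum_congr rfl fun q _ => h5 q]
  ring

theorem rank_lin (V : Shape r) : rank n V = ∑ x, coef V x * rank n (shp x) := by
  classical
  rw [Fintype.sum_option, Fintype.sum_sum_type, Fintype.sum_sum_type, Fintype.sum_sum_type]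
  have h0 : rank n (shp none) = 1 := by
    simp [rank, shp]
  have h1 : ∀ i, rank n (shp (some (Sum.inl i))) = 0 := by
    intro i
    simp [rank, shp]
  have h2 : ∀ i, rank n (shp (some (Sum.inr (Sum.inl i)))) = if n i = 1 then 1 else 0 := by
    intro i
    unfold rank shp
    dsimp only
    rw [zero_add, Finset.sum_eq_single i]
    · simp
    · intro j _ hj
      simp [hj]
    · intro h
      exact absurd (Finset.mem_univ i) h
  have h3 : ∀ i, rank n (shp (some (Sum.inr (Sum.inr (Sum.inl i))))) = 0 := by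
    intro i
    simp [rank, shp]
  have h4 : ∀ q : Fin r × Fin r, rank n (shp (some (Sum.inr (Sum.inr (Sum.inr q))))) = 0 := by
    intro q
    simp [rank, shp]
  simp only [h0, h1, h2, h3, h4, coef]
  unfold rank
  simp

theorem size_eq (V : Shape r) : size V = ∑ x, |coef V x| := by
  classical
  rw [Fintype.sum_option, Fintype.sum_sum_type, Fintype.sum_sum_type, Fintype.sum_sum_type]
  unfold size
  rw [Finset.sum_filter]
  simp only [coef]
  have h5 : ∀ q : Fin r × Fin r, (if q.1 < q.2 then |V.t q.1 q.2| else 0) =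
      |if q.1 < q.2 then V.t q.1 q.2 else 0| := by
    intro q
    split_ifs <;> simp
  rw [Finset.sum_congr rfl fun q _ => h5 q]
  ring

theorem size_nonneg (V : Shape r) : 0 ≤ size V := by
  rw [size_eq]
  exact Finset.sum_nonneg fun i _ => abs_nonneg _

theorem rank_le (V : Shape r) : |rank n V| ≤ size V := by
  unfold rank size
  refine (abs_add_le _ _).trans ?_
  have h1 : |∑ i, (if n i = 1 then V.l i else 0)| ≤ ∑ i, |V.l i| := by
    refine (Finset.abs_sum_le_sum_abs _ _).trans (Finset.sum_le_sum fun i _ => ?_)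
    split_ifs
    · exact le_rfl
    · rw [abs_zero]
      exact abs_nonneg _
  have h2 : 0 ≤ ∑ i, |V.a i| := Finset.sum_nonneg fun i _ => abs_nonneg _
  have h3 : 0 ≤ ∑ i, |V.s i| := Finset.sum_nonneg fun i _ => abs_nonneg _
  have h4 : 0 ≤ ∑ q : Fin r × Fin r with q.1 < q.2, |V.t q.1 q.2| :=
    Finset.sum_nonneg fun i _ => abs_nonneg _
  linarith

theorem tateSum_lin (V : Shape r) (c : (Σ i, Mon (n i + 1) (d i)) → ℤ) (w : ℕ → ℝ) (T : ℕ) :
    tateSum V c w T = ∑ x, coef V x * tateSum (shp x) c w T := by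
  classical
  unfold tateSum
  simp only [Finset.mul_sum]
  rw [Finset.sum_comm]
  refine Finset.sum_congr rfl fun p _ => ?_
  rw [traceH2_lin, Finset.sum_mul, Finset.sum_div, Finset.mul_sum]
  exact Finset.sum_congr rfl fun x _ => by ring

/-- **The uniform law of large numbers.** -/
theorem lln (hn : ∀ i, 1 ≤ n i) (hd : ∀ i, 3 ≤ d i) : ∃ C : ℝ, 0 < C ∧
    ∀ w : ℕ → ℝ, (∀ p, |w p| ≤ 1) → ∀ (H : ℕ) (A : ℝ), 0 < A →
      ({c : (Σ i, Mon (n i + 1) (d i)) → ℤ | (∀ μ, |c μ| ≤ H) ∧ ∃ (V : Shape r) (T : ℕ), 2 ≤ T ∧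
        8 * T ^ 4 ≤ H ∧ A * size V * (√T * Real.log T ^ 3) <
          |tateSum V c w T - rank n V * thetaSum w T|}.ncard : ℝ) ≤
        C / A ^ 2 * (2 * H + 1 : ℝ) ^ Fintype.card (Σ i, Mon (n i + 1) (d i)) := by
  classical
  choose K hK using fun x : Ix r => dat (M := toM (shp x)) hn hd (shp x).k
  obtain ⟨C, hC0, hC⟩ := Pool.Agent.Y722.ST.effective_weights (κ := Ix r) (K := K)
    (m := fun x => (shp x).k + rk n (toM (shp x))) (p0 := 0)
    (Y := fun x => YY n d (toM (shp x)) (shp x).k) hK 1 0 (by simp)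
  refine ⟨36 * C + 1, by positivity, fun w hw H A hA => ?_⟩
  obtain ⟨Φ, hΦ0, hΦ1, hΦ2⟩ := hC (fun _ => w) (fun _ => hw) H
  have hA2 : 0 < A ^ 2 / 36 := by positivity
  refine (markov H Φ hΦ0 hΦ1 hA2 _ ?_).trans ?_
  · rintro c ⟨V, T, hT, hTH, hlt⟩
    have hT0 : (0 : ℝ) < T := by exact_mod_cast (by omega : 0 < T)
    have hlog : 0 < Real.log T := Real.log_pos (by exact_mod_cast (by omega : 1 < T))
    have hB0 : 0 < √(T : ℝ) * Real.log T ^ 3 := mul_pos (Real.sqrt_pos.2 hT0) (pow_pos hlog 3)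
    have hx : ∀ x : Ix r, |tateSum (shp x) c w T - rank n (shp x) * thetaSum w T| ≤
        6 * √(Φ c) * (√(T : ℝ) * Real.log T ^ 3) := by
      intro x
      set a : ℕ → ℝ := fun p => if p.Prime then
        (w p * (YY n d (toM (shp x)) (shp x).k p (red p c) -
          ((shp x).k + rk n (toM (shp x))))) else 0 with ha
      have h1 : ∀ t : ℕ, 2 ≤ t → t ≤ T → (∑ i ∈ range t, a i) ^ 2 ≤ t * Real.log t ^ 4 * Φ c := by
        intro t ht htT
        have h8 : 8 * t ^ 4 ≤ H := by
          calc 8 * t ^ 4 ≤ 8 * T ^ 4 := by gcongr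
            _ ≤ H := hTH
        have h9 := hΦ2 c (fun _ => True) (fun _ _ _ _ => trivial) x t ht h8
        have e : Pool.Agent.Y722.ST.DD (fun p c => w p * (YY n d (toM (shp x)) (shp x).k p c -
            ((shp x).k + rk n (toM (shp x))))) 0 (fun _ => True) c t = ∑ i ∈ range t, a i := by
          unfold Pool.Agent.Y722.ST.DD
          exact Finset.sum_congr rfl fun p _ => by by_cases hp : p.Prime <;> simp [ha, hp]
        rwa [e] at h9
      have h2 := Pool.Agent.Y722.ST.abel_log a (by simp [ha, Nat.not_prime_zero])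
        (by simp [ha, Nat.not_prime_one]) (Φ c) T hT h1
      have h3 : ∑ i ∈ range T, a i * Real.log i =
          tateSum (shp x) c w T - rank n (shp x) * thetaSum w T := by
        unfold tateSum thetaSum
        rw [Finset.mul_sum, Finset.sum_filter, Finset.sum_filter, ← Finset.sum_sub_distrib]
        refine Finset.sum_congr rfl fun p _ => ?_
        rw [ha]
        by_cases hp : p.Prime
        · simp only [hp, if_true]
          rw [YY_eq (shp x) c p hp]
          have e : (shp x).k + rk n (toM (shp x)) = rank n (shp x) := rfl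
          rw [e]
          split_ifs with hg
          · ring
          · ring
        · have hg : ¬ Good c p := fun h => hp h.1
          simp only [hp, if_false, if_neg hg]
          ring
      rw [h3] at h2
      refine abs_le_of_sq_le_sq (h2.trans (le_of_eq ?_)) (by positivity)
      rw [mul_pow, mul_pow, mul_pow, Real.sq_sqrt hT0.le, Real.sq_sqrt (hΦ0 c)]
      ring
    have h4 : |tateSum V c w T - rank n V * thetaSum w T| ≤
        size V * (6 * √(Φ c) * (√(T : ℝ) * Real.log T ^ 3)) := by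
      rw [tateSum_lin, rank_lin, size_eq, Finset.sum_mul, ← Finset.sum_sub_distrib, Finset.sum_mul]
      refine (Finset.abs_sum_le_sum_abs _ _).trans (Finset.sum_le_sum fun x _ => ?_)
      rw [mul_assoc, ← mul_sub, abs_mul]
      exact mul_le_mul_of_nonneg_left (hx x) (abs_nonneg _)
    have h5 := hlt.trans_le h4
    have hs0 := size_nonneg V
    have hs : 0 < size V := by
      rcases hs0.lt_or_eq with h | h
      · exact h
      · rw [← h] at h5
        simp at h5
    have h6 : A * (size V * (√(T : ℝ) * Real.log T ^ 3)) <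
        (6 * √(Φ c)) * (size V * (√(T : ℝ) * Real.log T ^ 3)) := by
      calc A * (size V * (√(T : ℝ) * Real.log T ^ 3)) =
          A * size V * (√(T : ℝ) * Real.log T ^ 3) := by ring
        _ < _ := h5
        _ = _ := by ring
    have h7 : A < 6 * √(Φ c) := lt_of_mul_lt_mul_right h6 (by positivity)
    have h8 : A ^ 2 < (6 * √(Φ c)) ^ 2 := pow_lt_pow_left₀ h7 hA.le two_ne_zero
    rw [mul_pow, Real.sq_sqrt (hΦ0 c)] at h8
    linarith
  · have hN : (0 : ℝ) ≤ (2 * H + 1 : ℝ) ^ Fintype.card (Σ i, Mon (n i + 1) (d i)) := by positivity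
    refine mul_le_mul_of_nonneg_right ?_ hN
    rw [div_div_eq_mul_div]
    exact div_le_div_of_nonneg_right (by linarith) (by positivity)

theorem lim_sqrt (A : ℝ) :
    Tendsto (fun T : ℕ => A * (√(T : ℝ) * Real.log T ^ 3) / T) atTop (𝓝 0) := by
  have h1 : Tendsto (fun x : ℝ => Real.log x ^ 3 / (1 * x + 0)) atTop (𝓝 0) :=
    Real.tendsto_pow_log_div_mul_add_atTop 1 0 3 one_ne_zero
  have h2 : Tendsto (fun T : ℕ => √(T : ℝ)) atTop atTop :=
    Real.tendsto_sqrt_atTop.comp tendsto_natCast_atTop_atTop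
  have h3 := (h1.comp h2).const_mul (8 * A)
  rw [mul_zero] at h3
  refine h3.congr' ?_
  filter_upwards [eventually_gt_atTop 0] with T hT
  have hT0 : (0 : ℝ) < T := by exact_mod_cast hT
  have hs0 : 0 < √(T : ℝ) := Real.sqrt_pos.2 hT0
  have hl : Real.log √(T : ℝ) = Real.log T / 2 := Real.log_sqrt hT0.le
  simp only [Function.comp_apply, one_mul, add_zero]
  rw [hl]
  have e : A * (√(T : ℝ) * Real.log T ^ 3) / T = A * Real.log T ^ 3 / √(T : ℝ) := by
    rw [div_eq_div_iff hT0.ne' hs0.ne']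
    have : √(T : ℝ) * √(T : ℝ) = T := Real.mul_self_sqrt hT0.le
    calc A * (√(T : ℝ) * Real.log T ^ 3) * √(T : ℝ) =
        A * Real.log T ^ 3 * (√(T : ℝ) * √(T : ℝ)) := by ring
      _ = _ := by rw [this]
  rw [e]
  field_simp
  ring

theorem lim_theta : Tendsto (fun T : ℕ => thetaSum (fun _ => 1) T / T) atTop (𝓝 1) := by
  have h1 := Pool.Agent.Cov.PNT.theta_div_tendsto.comp (tendsto_natCast_atTop_atTop (R := ℝ))
  have h0 : Tendsto (fun T : ℕ => ((T - 1 : ℕ) : ℝ) / T) atTop (𝓝 1) := by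
    have h3 : Tendsto (fun T : ℕ => 1 - 1 / (T : ℝ)) atTop (𝓝 (1 - 0)) :=
      tendsto_const_nhds.sub tendsto_one_div_atTop_nhds_zero_nat
    rw [sub_zero] at h3
    refine h3.congr' ?_
    filter_upwards [eventually_gt_atTop 0] with T hT
    have hT0 : (0 : ℝ) < T := by exact_mod_cast hT
    rw [Nat.cast_sub (by omega : 1 ≤ T), Nat.cast_one]
    field_simp
  have h2 := (h1.comp (tendsto_sub_atTop_nat 1)).mul h0
  rw [mul_one] at h2
  refine h2.congr' ?_
  filter_upwards [eventually_gt_atTop 1] with T hT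
  have hT0 : (0 : ℝ) < T := by exact_mod_cast (by omega : 0 < T)
  have hT1 : (0 : ℝ) < ((T - 1 : ℕ) : ℝ) := by exact_mod_cast (by omega : 0 < T - 1)
  simp only [Function.comp_apply]
  have e : thetaSum (fun _ => 1) T = Chebyshev.theta ((T - 1 : ℕ) : ℝ) := by
    unfold thetaSum Chebyshev.theta
    rw [Nat.floor_natCast]
    simp only [one_mul]
    refine Finset.sum_congr ?_ fun _ _ => rfl
    ext p
    simp only [Finset.mem_filter, Finset.mem_range, Finset.mem_Ioc]
    constructor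
    · rintro ⟨h1, h2⟩
      exact ⟨⟨h2.pos, by omega⟩, h2⟩
    · rintro ⟨⟨h1, h2⟩, h3⟩
      exact ⟨by omega, h3⟩
  rw [e]
  field_simp

/-- **The averages of the question are near the rank for almost all varieties.** -/
theorem lln_limit (hn : ∀ i, 1 ≤ n i) (hd : ∀ i, 3 ≤ d i) (η : ℝ) (hη : 0 < η) :
    ∃ T₀ : ℕ, ∀ H : ℕ, ({c : (Σ i, Mon (n i + 1) (d i)) → ℤ | (∀ μ, |c μ| ≤ H) ∧
      ∃ (V : Shape r) (T : ℕ), T₀ ≤ T ∧ 8 * T ^ 4 ≤ H ∧
        η * size V < |tateSum V c (fun _ => 1) T / T - rank n V|}.ncard : ℝ) ≤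
        η * (2 * H + 1 : ℝ) ^ Fintype.card (Σ i, Mon (n i + 1) (d i)) := by
  obtain ⟨C, hC0, hC⟩ := lln hn hd
  set A : ℝ := √(C / η) with hA
  have hCη : 0 < C / η := div_pos hC0 hη
  have hA0 : 0 < A := Real.sqrt_pos.2 hCη
  have hA2 : C / A ^ 2 = η := by
    rw [hA, Real.sq_sqrt hCη.le]
    field_simp
  have h1 := lim_sqrt A
  have h2 : Tendsto (fun T : ℕ => thetaSum (fun _ => 1) T / T - 1) atTop (𝓝 0) := by
    have := lim_theta.sub_const 1
    rwa [sub_self] at this
  have h3 := h1.eventually (gt_mem_nhds (by positivity : 0 < η / 2))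
  have h4 := h2.eventually (Metric.ball_mem_nhds 0 (by positivity : 0 < η / 2))
  obtain ⟨T₀, hT₀⟩ := Filter.eventually_atTop.1 (h3.and h4)
  refine ⟨max T₀ 2, fun H => ?_⟩
  have h5 := hC (fun _ => 1) (fun _ => by simp) H A hA0
  rw [hA2] at h5
  refine le_trans ?_ h5
  refine Nat.cast_le.2 (Set.ncard_le_ncard ?_ ?_)
  · rintro c ⟨hc, V, T, hT, hTH, hlt⟩
    have hT2 : 2 ≤ T := (le_max_right _ _).trans hT
    have hT0 : (0 : ℝ) < T := by exact_mod_cast (by omega : 0 < T)
    refine ⟨hc, V, T, hT2, hTH, ?_⟩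
    obtain ⟨h6, h7⟩ := hT₀ T ((le_max_left _ _).trans hT)
    rw [dist_zero_right, Real.norm_eq_abs] at h7
    by_contra hcon
    push Not at hcon
    have hs0 := size_nonneg V
    have h8 : |(tateSum V c (fun _ => 1) T - rank n V * thetaSum (fun _ => 1) T) / T| ≤
        size V * (η / 2) := by
      rw [abs_div, abs_of_pos hT0]
      calc |tateSum V c (fun _ => 1) T - rank n V * thetaSum (fun _ => 1) T| / T ≤
          A * size V * (√(T : ℝ) * Real.log T ^ 3) / T := div_le_div_of_nonneg_right hcon hT0.le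
        _ = size V * (A * (√(T : ℝ) * Real.log T ^ 3) / T) := by ring
        _ ≤ _ := mul_le_mul_of_nonneg_left h6.le hs0
    have h11 : |rank n V * (thetaSum (fun _ => 1) T / T - 1)| ≤ size V * (η / 2) := by
      rw [abs_mul]
      exact mul_le_mul (rank_le V) h7.le (abs_nonneg _) hs0
    have h9 : tateSum V c (fun _ => 1) T / T - rank n V =
        (tateSum V c (fun _ => 1) T - rank n V * thetaSum (fun _ => 1) T) / T +
          rank n V * (thetaSum (fun _ => 1) T / T - 1) := by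
      field_simp
      ring
    rw [h9] at hlt
    have h10 := abs_add_le ((tateSum V c (fun _ => 1) T - rank n V * thetaSum (fun _ => 1) T) / T)
      (rank n V * (thetaSum (fun _ => 1) T / T - 1))
    linarith
  · refine Set.Finite.subset (Set.Finite.pi' fun _ => Set.finite_Icc (-(H : ℤ)) H) ?_
    rintro c ⟨hc, -⟩ μ
    exact abs_le.1 (hc μ)

end

end Pool.Agent.K1H81.HW
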