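import Pool.Agent.K1H81.HW.Loc
import Pool.Agent.Y722.ST.Main
import Pool.Agent.Y722.ST.Abel

/-!
# The moments of the trace on `H²`, and the primes of good reduction
-/

set_option autoImplicit false
set_option linter.unusedSectionVars false

namespace Pool.Agent.K1H81.HW

open Finset hiding val
open Pool.Agent.Y722.HS Pool.Agent.X280.HG Pool.Agent.X280.BP Pool.Agent.X280.UC Pool.Agent.K1H81.HV
open Pool.Agent.Y722.ST (Dat)

section
variable {r : ℕ} {n d : Fin r → ℕ} {M : Mult r}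

theorem TT_eq (q : Fin r × Fin r) (hq : q ∈ pr r) (p : ℕ)
    (c : (Σ i, Mon (n i + 1) (d i)) → ZMod p) :
    T1 n d q.1 p (fun μ => c ⟨q.1, μ⟩) * T1 n d q.2 p (fun μ => c ⟨q.2, μ⟩) =
      XS (κ := fun i => Mon (n i + 1) (d i)) (T1 n d) {q.1, q.2} p c := by
  unfold pr at hq
  rw [Finset.mem_filter] at hq
  unfold XS
  rw [Finset.prod_pair (ne_of_lt hq.2)]

/-- **The moments of the trace on the varying part.** -/
theorem BB_mom (hn : ∀ i, 1 ≤ n i) (hd : ∀ i, 3 ≤ d i) : ∃ C : ℝ, 1 ≤ C ∧ ∀ (p : ℕ)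
    [Fact p.Prime], |EM p (BB n d M p) - rk n M| ≤ C / √p ∧ EM p (fun c => BB n d M p c ^ 2) ≤ C := by
  classical
  obtain ⟨C, hC1, hC⟩ := F1_mom (M := M) hn hd
  have hC0 : 0 ≤ C := by linarith
  set A : ℝ := ∑ q ∈ pr r, |M.t q.1 q.2| with hA
  have hA0 : 0 ≤ A := Finset.sum_nonneg fun i _ => abs_nonneg _
  have hAq : ∀ q ∈ pr r, |M.t q.1 q.2| ≤ A := fun q hq =>
    Finset.single_le_sum (f := fun q => |M.t q.1 q.2|) (fun i _ => abs_nonneg _) hq
  set R : ℝ := (r : ℝ) with hR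
  have hR0 : 0 ≤ R := Nat.cast_nonneg r
  set L : ℝ := (1 + C) ^ r with hL
  have hL0 : 0 ≤ L := by positivity
  set N2 : ℝ := ((pr r).card : ℝ) with hN2
  have hN20 : 0 ≤ N2 := Nat.cast_nonneg _
  refine ⟨1 + (R * C + A * (C * L)) + (2 * (R * (R * C)) + 2 * (N2 * (N2 * (A ^ 2 * L)))),
    by
      have h1 : 0 ≤ R * C := by positivity
      have h2 : 0 ≤ A * (C * L) := by positivity
      have h3 : 0 ≤ R * (R * C) := by positivity
      have h4 : 0 ≤ N2 * (N2 * (A ^ 2 * L)) := by positivity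
      linarith, fun p hp => ?_⟩
  have hp1 : (1 : ℝ) ≤ p := by exact_mod_cast hp.out.one_lt.le
  have hs1 : 1 ≤ √(p : ℝ) := Real.one_le_sqrt.2 hp1
  have hs0 : 0 < √(p : ℝ) := by linarith
  have hCp : C / √(p : ℝ) ≤ C := div_le_self hC0 hs1
  -- the products
  have hT : ∀ (i : Fin r) (e : ℕ), e ≤ 2 → |EM p (fun c => T1 n d i p c ^ e)| ≤ 1 + C := by
    intro i e he
    obtain ⟨-, -, h3, h4⟩ := hC i p
    interval_cases e
    · simp only [pow_zero]
      rw [EM_const', abs_one]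
      linarith
    · simp only [pow_one]
      exact h3.trans (by linarith)
    · have h0 : 0 ≤ EM p (fun c => T1 n d i p c ^ 2) := by
        unfold EM
        have : 0 ≤ ∑ c, T1 n d i p c ^ 2 := Finset.sum_nonneg fun c _ => by positivity
        positivity
      rw [abs_of_nonneg h0]
      linarith
  have hX1 : ∀ q ∈ pr r, |EM p (XS (κ := fun i => Mon (n i + 1) (d i)) (T1 n d) {q.1, q.2} p)| ≤
      C / √p * L := by
    intro q _
    rw [EM_XS]
    refine prod_small (by linarith) _ (fun i => hT i _ ((ex_le _ i).trans (by norm_num))) q.1 ?_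
    have e : ex ({q.1, q.2} : Finset (Fin r)) q.1 = 1 := by
      unfold ex
      rw [if_pos (Finset.mem_insert_self _ _)]
    rw [e]
    simp only [pow_one]
    exact (hC q.1 p).2.2.1
  have hX2 : ∀ q ∈ pr r, EM p (fun c => XS (κ := fun i => Mon (n i + 1) (d i)) (T1 n d)
      {q.1, q.2} p c ^ 2) ≤ L := by
    intro q _
    have e : (fun c : (Σ i, Mon (n i + 1) (d i)) → ZMod p =>
        XS (κ := fun i => Mon (n i + 1) (d i)) (T1 n d) {q.1, q.2} p c ^ 2) = fun c =>
        XS (κ := fun i => Mon (n i + 1) (d i)) (T1 n d) {q.1, q.2} p c *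
        XS (κ := fun i => Mon (n i + 1) (d i)) (T1 n d) {q.1, q.2} p c := by
      funext c
      rw [pow_two]
    rw [e, EM_XX]
    refine (le_abs_self _).trans ?_
    rw [Finset.abs_prod]
    calc ∏ i, |EM p (fun c => T1 n d i p c ^ (ex {q.1, q.2} i + ex {q.1, q.2} i))| ≤
        ∏ _i : Fin r, (1 + C) := Finset.prod_le_prod (fun i _ => abs_nonneg _) fun i _ =>
          hT i _ (by have := ex_le {q.1, q.2} i; omega)
      _ = _ := by rw [Finset.prod_const, Finset.card_univ, Fintype.card_fin, hL]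
  have hB : BB n d M p = fun c => ∑ i, F1 n d M i p (fun μ => c ⟨i, μ⟩) +
      ∑ q ∈ pr r, M.t q.1 q.2 * XS (κ := fun i => Mon (n i + 1) (d i)) (T1 n d) {q.1, q.2} p c := by
    funext c
    unfold BB
    congr 1
    exact Finset.sum_congr rfl fun q hq => by rw [TT_eq q hq]
  constructor
  · rw [hB, EM_add', EM_sum', EM_sum']
    have e1 : ∀ i, EM p (fun c : (Σ i, Mon (n i + 1) (d i)) → ZMod p =>
        F1 n d M i p (fun μ => c ⟨i, μ⟩)) = EM p (F1 n d M i p) := fun i => EM_comp p i _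
    simp only [e1, EM_mul']
    unfold rk
    have e2 : ∑ i, EM p (F1 n d M i p) + ∑ q ∈ pr r, M.t q.1 q.2 *
        EM p (fun c => XS (κ := fun i => Mon (n i + 1) (d i)) (T1 n d) {q.1, q.2} p c) -
        ∑ i, (if n i = 1 then M.l i else 0) =
        ∑ i, (EM p (F1 n d M i p) - (if n i = 1 then M.l i else 0)) +
        ∑ q ∈ pr r, M.t q.1 q.2 *
        EM p (fun c => XS (κ := fun i => Mon (n i + 1) (d i)) (T1 n d) {q.1, q.2} p c) := by
      rw [Finset.sum_sub_distrib]
      ring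
    rw [e2]
    have b1 : |∑ i, (EM p (F1 n d M i p) - (if n i = 1 then M.l i else 0))| ≤ R * C / √p := by
      refine (Finset.abs_sum_le_sum_abs _ _).trans ((Finset.sum_le_sum fun i _ =>
        (hC i p).1).trans ?_)
      rw [Finset.sum_const, nsmul_eq_mul, Finset.card_univ, Fintype.card_fin, mul_div_assoc]
    have b2 : |∑ q ∈ pr r, M.t q.1 q.2 *
        EM p (fun c => XS (κ := fun i => Mon (n i + 1) (d i)) (T1 n d) {q.1, q.2} p c)| ≤
        A * (C * L) / √p := by
      refine (Finset.abs_sum_le_sum_abs _ _).trans ?_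
      rw [hA, Finset.sum_mul, Finset.sum_div]
      refine Finset.sum_le_sum fun q hq => ?_
      rw [abs_mul]
      calc |M.t q.1 q.2| * |EM p (fun c => XS (κ := fun i => Mon (n i + 1) (d i)) (T1 n d)
            {q.1, q.2} p c)| ≤ |M.t q.1 q.2| * (C / √p * L) := by
            gcongr
            exact hX1 q hq
        _ = _ := by ring
    refine (abs_add_le _ _).trans ((add_le_add b1 b2).trans ?_)
    rw [← add_div]
    have h3 : 0 ≤ R * (R * C) := by positivity
    have h4 : 0 ≤ N2 * (N2 * (A ^ 2 * L)) := by positivity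
    exact div_le_div_of_nonneg_right (by linarith) hs0.le
  · rw [hB]
    have h1 : EM p (fun c : (Σ i, Mon (n i + 1) (d i)) → ZMod p =>
        (∑ i, F1 n d M i p (fun μ => c ⟨i, μ⟩) + ∑ q ∈ pr r, M.t q.1 q.2 *
          XS (κ := fun i => Mon (n i + 1) (d i)) (T1 n d) {q.1, q.2} p c) ^ 2) ≤
        EM p (fun c => 2 * (R * ∑ i, F1 n d M i p (fun μ => c ⟨i, μ⟩) ^ 2) +
          2 * (N2 * ∑ q ∈ pr r, A ^ 2 * XS (κ := fun i => Mon (n i + 1) (d i)) (T1 n d)
            {q.1, q.2} p c ^ 2)) := by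
      refine EM_monoV p _ _ fun c => ?_
      have u1 := sq_sum_le_card_mul_sum_sq (s := univ)
        (f := fun i => F1 n d M i p (fun μ => c ⟨i, μ⟩))
      rw [Finset.card_univ, Fintype.card_fin] at u1
      have u2 := sq_sum_le_card_mul_sum_sq (s := pr r)
        (f := fun q => M.t q.1 q.2 *
          XS (κ := fun i => Mon (n i + 1) (d i)) (T1 n d) {q.1, q.2} p c)
      have u3 : ∑ q ∈ pr r, (M.t q.1 q.2 *
          XS (κ := fun i => Mon (n i + 1) (d i)) (T1 n d) {q.1, q.2} p c) ^ 2 ≤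
          ∑ q ∈ pr r, A ^ 2 * XS (κ := fun i => Mon (n i + 1) (d i)) (T1 n d)
            {q.1, q.2} p c ^ 2 := by
        refine Finset.sum_le_sum fun q hq => ?_
        rw [mul_pow]
        have : M.t q.1 q.2 ^ 2 ≤ A ^ 2 := by
          rw [← sq_abs]
          exact pow_le_pow_left₀ (abs_nonneg _) (hAq q hq) 2
        gcongr
      have u4 : N2 * ∑ q ∈ pr r, (M.t q.1 q.2 *
          XS (κ := fun i => Mon (n i + 1) (d i)) (T1 n d) {q.1, q.2} p c) ^ 2 ≤
          N2 * ∑ q ∈ pr r, A ^ 2 * XS (κ := fun i => Mon (n i + 1) (d i)) (T1 n d)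
            {q.1, q.2} p c ^ 2 := by gcongr
      obtain ⟨x, hx⟩ : ∃ x, ∑ i, F1 n d M i p (fun μ => c ⟨i, μ⟩) = x := ⟨_, rfl⟩
      obtain ⟨y, hy⟩ : ∃ y, ∑ q ∈ pr r, M.t q.1 q.2 *
          XS (κ := fun i => Mon (n i + 1) (d i)) (T1 n d) {q.1, q.2} p c = y := ⟨_, rfl⟩
      rw [hx] at u1 ⊢
      rw [hy] at u2 ⊢
      have u5 : (x + y) ^ 2 ≤ 2 * x ^ 2 + 2 * y ^ 2 := by nlinarith [sq_nonneg (x - y)]
      linarith
    refine h1.trans ?_
    rw [EM_add', EM_mul', EM_mul', EM_mul', EM_mul', EM_sum', EM_sum']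
    have b1 : ∑ i, EM p (fun c : (Σ i, Mon (n i + 1) (d i)) → ZMod p =>
        F1 n d M i p (fun μ => c ⟨i, μ⟩) ^ 2) ≤ R * C := by
      have e1 : ∀ i, EM p (fun c : (Σ i, Mon (n i + 1) (d i)) → ZMod p =>
        F1 n d M i p (fun μ => c ⟨i, μ⟩) ^ 2) ≤ C := fun i => by
        have e2 := EM_comp (κ := fun i => Mon (n i + 1) (d i)) p i (fun c => F1 n d M i p c ^ 2)
        exact e2.le.trans (hC i p).2.1
      refine (Finset.sum_le_sum fun i _ => e1 i).trans ?_
      rw [Finset.sum_const, nsmul_eq_mul, Finset.card_univ, Fintype.card_fin]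
    have b2 : ∑ q ∈ pr r, EM p (fun c => A ^ 2 * XS (κ := fun i => Mon (n i + 1) (d i)) (T1 n d)
        {q.1, q.2} p c ^ 2) ≤ N2 * (A ^ 2 * L) := by
      have e1 : ∀ q ∈ pr r, EM p (fun c => A ^ 2 * XS (κ := fun i => Mon (n i + 1) (d i)) (T1 n d)
        {q.1, q.2} p c ^ 2) ≤ A ^ 2 * L := fun q hq => by
        rw [EM_mul']
        exact mul_le_mul_of_nonneg_left (hX2 q hq) (sq_nonneg A)
      refine (Finset.sum_le_sum e1).trans ?_
      rw [Finset.sum_const, nsmul_eq_mul]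
    have h5 : 0 ≤ R * C := by positivity
    have h6 : 0 ≤ A * (C * L) := by positivity
    refine (add_le_add (mul_le_mul_of_nonneg_left (mul_le_mul_of_nonneg_left b1 hR0) zero_le_two)
      (mul_le_mul_of_nonneg_left (mul_le_mul_of_nonneg_left b2 hN20) zero_le_two)).trans ?_
    linarith

end

end Pool.Agent.K1H81.HW
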