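import Pool.Agent.K1H81.HW.Dat

/-!
# The primes of good reduction, and the local data
-/

set_option autoImplicit false
set_option linter.unusedSectionVars false

namespace Pool.Agent.K1H81.HW

open Finset hiding val
open Pool.Agent.Y722.HS Pool.Agent.X280.HG Pool.Agent.X280.BP Pool.Agent.X280.UC Pool.Agent.K1H81.HV
open Pool.Agent.Y722.ST (Dat)

section
variable {r : ℕ} {n d : Fin r → ℕ} {M : Mult r}

/-- The form with coefficients in the prime field is smooth. -/
def Good1 {n d : ℕ} (p : ℕ) (c : Mon n d → ZMod p) : Prop :=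
  ∃ h : p.Prime, haveI : Fact p.Prime := ⟨h⟩
    IsSmooth (form fun μ => algebraMap (ZMod p) (AlgebraicClosure (ZMod p)) (c μ))

theorem good_iff {n d : ℕ} (c : Mon n d → ℤ) (p : ℕ) : GoodReduction c p ↔ Good1 p (red p c) := by
  unfold GoodReduction Good1
  constructor
  · rintro ⟨h, h1⟩
    haveI : Fact p.Prime := ⟨h⟩
    refine ⟨h, ?_⟩
    have : ∀ μ, algebraMap (ZMod p) (AlgebraicClosure (ZMod p)) (red p c μ) =
        (c μ : AlgebraicClosure (ZMod p)) := by
      intro μ
      unfold red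
      rw [map_intCast]
    simp only [this]
    exact h1
  · rintro ⟨h, h1⟩
    haveI : Fact p.Prime := ⟨h⟩
    refine ⟨h, ?_⟩
    have : ∀ μ, algebraMap (ZMod p) (AlgebraicClosure (ZMod p)) (red p c μ) =
        (c μ : AlgebraicClosure (ZMod p)) := by
      intro μ
      unfold red
      rw [map_intCast]
    simp only [this] at h1
    exact h1

theorem bad1 {n d : ℕ} (hd : 1 ≤ d) (p : ℕ) [hp : Fact p.Prime] (c : Mon n d → ZMod p)
    (h : ¬ Good1 p c) : IsBad p c := by
  by_contra hcon
  apply h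
  refine ⟨hp.out, ?_⟩
  have h1 := isSmooth_of_not_isBad p hd c hcon
  have h2 : MvPolynomial.map (algebraMap (ZMod p) (AlgebraicClosure (ZMod p))) (form c) =
      form (fun μ => algebraMap (ZMod p) (AlgebraicClosure (ZMod p)) (c μ)) := by
    simp only [form, map_sum, map_prod, map_mul, MvPolynomial.map_C, map_pow, MvPolynomial.map_X]
  rwa [h2] at h1

open Classical in
/-- The indicator of the bad reduction of one of the hypersurfaces. -/
noncomputable def badI (n d : Fin r → ℕ) (p : ℕ) (c : (Σ i, Mon (n i + 1) (d i)) → ZMod p) : ℝ :=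
  if ∀ i, Good1 p (fun μ => c ⟨i, μ⟩) then 0 else 1

theorem EM_badI (hd : ∀ i, 1 ≤ d i) : ∃ C : ℝ, 0 ≤ C ∧ ∀ (p : ℕ) [Fact p.Prime],
    EM p (badI n d p) ≤ C / p := by
  classical
  refine ⟨∑ i, ((Delta (n i + 1) (d i)).totalDegree + d i : ℝ), by positivity, fun p hp => ?_⟩
  have h1 : EM p (badI n d p) ≤ EM p (fun c : (Σ i, Mon (n i + 1) (d i)) → ZMod p =>
      ∑ i, (if IsBad p (fun μ => c ⟨i, μ⟩) then (1 : ℝ) else 0)) := by
    refine EM_monoV p _ _ fun c => ?_
    have h0 : 0 ≤ ∑ i, (if IsBad p (fun μ => c ⟨i, μ⟩) then (1 : ℝ) else 0) :=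
      Finset.sum_nonneg fun i _ => by split_ifs <;> norm_num
    unfold badI
    split_ifs with h
    · exact h0
    · push Not at h
      obtain ⟨i, hi⟩ := h
      have h2 : (1 : ℝ) = (fun i : Fin r =>
          if IsBad p (fun μ => c ⟨i, μ⟩) then (1 : ℝ) else 0) i := by
        have h3 := bad1 (hd i) p _ hi
        simp only [if_pos h3]
      refine h2.le.trans ?_
      exact Finset.single_le_sum (f := fun i : Fin r =>
        if IsBad p (fun μ => c ⟨i, μ⟩) then (1 : ℝ) else 0)
        (fun i _ => by split_ifs <;> norm_num) (Finset.mem_univ i)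
  refine h1.trans ?_
  rw [EM_sum', Finset.sum_div]
  refine Finset.sum_le_sum fun i _ => ?_
  have h2 := EM_comp (κ := fun i => Mon (n i + 1) (d i)) p i
    (fun c => if IsBad p c then (1 : ℝ) else 0)
  rw [h2]
  exact EM_bad (n i + 1) (d i) (hd i) p

/-- The local data: the trace on `H²` at the primes of good reduction. -/
noncomputable def YY (n d : Fin r → ℕ) (M : Mult r) (k : ℝ) (p : ℕ)
    (c : (Σ i, Mon (n i + 1) (d i)) → ZMod p) : ℝ :=
  (1 - badI n d p c) * (k + BB n d M p c)

theorem badI_cases (p : ℕ) (c : (Σ i, Mon (n i + 1) (d i)) → ZMod p) :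
    badI n d p c = 0 ∨ badI n d p c = 1 := by
  unfold badI
  split_ifs
  · exact Or.inl rfl
  · exact Or.inr rfl

theorem dat (hn : ∀ i, 1 ≤ n i) (hd : ∀ i, 3 ≤ d i) (k : ℝ) : ∃ K : ℝ,
    Dat K 0 (YY n d M k) (k + rk n M) := by
  obtain ⟨C, hC1, hC⟩ := BB_mom (M := M) hn hd
  obtain ⟨D, hD0, hD⟩ := EM_badI (n := n) fun i => (show 1 ≤ d i by have := hd i; omega)
  refine ⟨2 * k ^ 2 + 2 * C + 1 + (C + ((2 * k ^ 2 + 2 * C) + D)), by nlinarith [sq_nonneg k],
    fun p hp _ => ?_, fun p hp _ => ?_⟩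
  · obtain ⟨h1, h2⟩ := hC p
    have h3 : EM p (fun c => YY n d M k p c ^ 2) ≤
        EM p (fun c => 2 * k ^ 2 + 2 * BB n d M p c ^ 2) := by
      refine EM_monoV p _ _ fun c => ?_
      unfold YY
      obtain ⟨x, hx⟩ : ∃ x, BB n d M p c = x := ⟨_, rfl⟩
      rw [hx]
      rcases badI_cases p c with h | h
      · rw [h]
        nlinarith [sq_nonneg (k - x)]
      · rw [h]
        nlinarith [sq_nonneg k, sq_nonneg x]
    rw [EM_add', EM_const', EM_mul'] at h3
    nlinarith [sq_nonneg k]
  · obtain ⟨h1, h2⟩ := hC p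
    have hp0 : (0 : ℝ) < p := by exact_mod_cast hp.out.pos
    have hp1 : (1 : ℝ) ≤ p := by exact_mod_cast hp.out.one_lt.le
    have hs1 : 1 ≤ √(p : ℝ) := Real.one_le_sqrt.2 hp1
    have hs0 : 0 < √(p : ℝ) := by linarith
    have hss : √(p : ℝ) * √(p : ℝ) = p := Real.mul_self_sqrt hp0.le
    have e1 : (fun c => YY n d M k p c) = fun c =>
        (k + BB n d M p c) + (-1) * (badI n d p c * (k + BB n d M p c)) := by
      funext c
      unfold YY
      ring
    have h4 : |EM p (fun c => badI n d p c * (k + BB n d M p c))| ≤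
        EM p (fun c => 1 / √p * ((2 * k ^ 2 + 2 * BB n d M p c ^ 2)) + √p * badI n d p c) := by
      refine abs_EM_le_EM p _ _ fun c => ?_
      obtain ⟨x, hx⟩ : ∃ x, BB n d M p c = x := ⟨_, rfl⟩
      rw [hx]
      rcases badI_cases p c with h | h
      · rw [h, zero_mul, abs_zero, mul_zero, add_zero]
        positivity
      · rw [h, one_mul, mul_one]
        obtain ⟨a, ha⟩ : ∃ a, √(p : ℝ) = a := ⟨_, rfl⟩
        rw [ha] at hs0 ⊢
        have h5 : |k + x| ≤ 1 / a * (k + x) ^ 2 + a := by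
          obtain ⟨z, hz⟩ : ∃ z, |k + x| = z := ⟨_, rfl⟩
          have hz2 : (k + x) ^ 2 = z ^ 2 := by rw [← hz, sq_abs]
          rw [hz, hz2]
          have h6 : z * a ≤ z ^ 2 + a * a := by nlinarith [sq_nonneg (z - a), sq_nonneg z]
          have h7 : 1 / a * z ^ 2 + a = (z ^ 2 + a * a) / a := by field_simp
          rw [h7, le_div_iff₀ hs0]
          exact h6
        refine h5.trans ?_
        gcongr
        nlinarith [sq_nonneg (k - x)]
    rw [EM_add', EM_mul', EM_mul', EM_add', EM_const', EM_mul'] at h4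
    have h5 : √(p : ℝ) * EM p (badI n d p) ≤ D / √p := by
      calc √(p : ℝ) * EM p (badI n d p) ≤ √(p : ℝ) * (D / p) := by
            gcongr
            exact hD p
        _ = D / √p := by
            rw [eq_div_iff hs0.ne', mul_comm (√(p : ℝ)) (D / p), mul_assoc, hss,
              div_mul_cancel₀ _ hp0.ne']
    have h6 : 1 / √(p : ℝ) * (2 * k ^ 2 + 2 * EM p (fun c => BB n d M p c ^ 2)) ≤
        (2 * k ^ 2 + 2 * C) / √p := by
      rw [one_div_mul_eq_div]
      gcongr
    rw [e1, EM_add', EM_add', EM_const', EM_mul']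
    have e2 : k + EM p (fun c => BB n d M p c) +
        (-1) * EM p (fun c => badI n d p c * (k + BB n d M p c)) - (k + rk n M) =
        (EM p (BB n d M p) - rk n M) - EM p (fun c => badI n d p c * (k + BB n d M p c)) := by
      ring
    rw [e2]
    refine (abs_sub _ _).trans ?_
    have h7 : |EM p (fun c => badI n d p c * (k + BB n d M p c))| ≤
        ((2 * k ^ 2 + 2 * C) + D) / √p := by
      rw [add_div]
      linarith
    refine (add_le_add h1 h7).trans ?_
    rw [← add_div]
    have hk : 0 ≤ k ^ 2 := sq_nonneg k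
    exact div_le_div_of_nonneg_right (by linarith) hs0.le

end

end Pool.Agent.K1H81.HW
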