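import Pool.Agent.K1H81.HW.Dat2
import Pool.Agent.K1H81.HW.Defs
import Pool.Agent.K1H81.HV.Law
import Pool.Agent.Cov.PNT

/-!
# The law of large numbers, uniformly in the length of the sum
-/

set_option autoImplicit false
set_option linter.unusedSectionVars false

namespace Pool.Agent.K1H81.HW

open Finset hiding val
open Filter Topology
open Pool.Agent.Y722.HS Pool.Agent.X280.HG Pool.Agent.X280.BP Pool.Agent.X280.UC Pool.Agent.K1H81.HV
open Pool.Agent.Y722.ST (Dat)

theorem ty_points {n d : ℕ} (c : Mon (n + 1) d → ℤ) (p k : ℕ) [hp : Fact p.Prime] (hk : 0 < k) :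
    ty n d p k (red p c) =
      (HV.numPoints c p k - ∑ i ∈ range (n + 1), ((p : ℝ) ^ k) ^ i) / √(((p : ℝ) ^ k) ^ n) := by
  classical
  have hfin : Finite (GaloisField p k) := inferInstance
  let _ := Fintype.ofFinite (GaloisField p k)
  have hq : Fintype.card (GaloisField p k) = p ^ k := by
    rw [← Nat.card_eq_fintype_card]
    exact GaloisField.card p k hk.ne'
  let ι : GaloisField p k →+* KK p := (IsAlgClosed.lift (R := ZMod p)).toRingHom
  have h1 := card_cone (n := n + 1) (d := d) k hk hq ι (algebraMap (ZMod p) (GaloisField p k))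
    (red p c)
  have h2 : Nat.card {x : Fin (n + 1 + 1) → GaloisField p k // x ≠ 0 ∧
      MvPolynomial.eval x (form fun μ => (c μ : GaloisField p k)) = 0} =
      (p ^ k - 1) * ((PF p (n + 1) k).filter fun v => ev (red p c) v = 0).card := by
    have h3 : Nat.card {v : NV p (n + 1) // v ∈ PF p (n + 1) k ∧ ev (red p c) v = 0} =
        ((PF p (n + 1) k).filter fun v => ev (red p c) v = 0).card := by
      rw [← Nat.card_eq_finsetCard]
      exact Nat.card_congr (Equiv.subtypeEquivRight fun x => by rw [Finset.mem_filter])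
    rw [h3] at h1
    rw [← h1]
    refine Nat.card_congr (Equiv.subtypeEquivRight fun x => ?_)
    rw [eval_form]
    have h4 : ∀ μ, algebraMap (ZMod p) (GaloisField p k) (red p c μ) = (c μ : GaloisField p k) := by
      intro μ
      unfold red
      rw [map_intCast]
    unfold val
    simp only [h4]
  have hpk : (1 : ℝ) < (p : ℝ) ^ k := one_lt_pow₀ (by exact_mod_cast hp.out.one_lt) hk.ne'
  unfold HV.numPoints ty
  rw [dif_pos hp.out, h2]
  congr 2
  rw [Nat.cast_mul, Nat.cast_sub (Nat.one_le_pow _ _ hp.out.pos)]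
  push_cast
  rw [mul_div_cancel_left₀ _ (by linarith : (p : ℝ) ^ k - 1 ≠ 0)]

section
variable {r : ℕ} {n d : Fin r → ℕ}

/-- The multiplicities of the shape. -/
def toM (V : Shape r) : Mult r := ⟨V.a, V.l, V.s, V.t⟩

theorem trH1 {n d : ℕ} (c : Mon (n + 1) d → ℤ) (p k : ℕ) [hp : Fact p.Prime] (hk : 0 < k)
    (hn : n = 1) : traceH1 c p k = -(√((p : ℝ) ^ k) * ty n d p k (red p c)) := by
  subst hn
  have hp0 : (0 : ℝ) < (p : ℝ) ^ k := pow_pos (by exact_mod_cast hp.out.pos) k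
  have hs0 : 0 < √((p : ℝ) ^ k) := Real.sqrt_pos.2 hp0
  rw [ty_points c p k hk]
  unfold traceH1
  rw [if_pos rfl, pow_one, mul_div_cancel₀ _ hs0.ne']
  simp only [Finset.sum_range_succ, Finset.range_zero, Finset.sum_empty, pow_zero, pow_one]
  ring

theorem trH2 {n d : ℕ} (c : Mon (n + 1) d → ℤ) (p : ℕ) [hp : Fact p.Prime] (hn : n = 2) :
    tracePrim c p = p * ty n d p 1 (red p c) := by
  subst hn
  have hp0 : (0 : ℝ) < (p : ℝ) := by exact_mod_cast hp.out.pos
  rw [ty_points c p 1 one_pos]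
  unfold tracePrim
  rw [if_pos rfl, pow_one, Real.sqrt_sq hp0.le, mul_div_cancel₀ _ hp0.ne']
  simp only [Finset.sum_range_succ, Finset.range_zero, Finset.sum_empty, pow_zero, pow_one]
  ring

theorem T1_eq (c : (Σ i, Mon (n i + 1) (d i)) → ℤ) (p : ℕ) [hp : Fact p.Prime] (i : Fin r) :
    traceH1 (fun μ => c ⟨i, μ⟩) p 1 = -(√(p : ℝ) * T1 n d i p (fun μ => red p c ⟨i, μ⟩)) := by
  unfold T1
  rw [dif_pos hp.out]
  by_cases h : n i = 1
  · rw [if_pos h, trH1 _ p 1 one_pos h, pow_one]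
    rfl
  · rw [if_neg h, mul_zero, neg_zero]
    unfold traceH1
    rw [if_neg h]

theorem traceH2_eq (V : Shape r) (c : (Σ i, Mon (n i + 1) (d i)) → ℤ) (p : ℕ)
    [hp : Fact p.Prime] : traceH2 V c p / p = V.k + BB n d (toM V) p (red p c) := by
  have hp0 : (0 : ℝ) < (p : ℝ) := by exact_mod_cast hp.out.pos
  have hss : √(p : ℝ) * √(p : ℝ) = p := Real.mul_self_sqrt hp0.le
  have h1 : ∀ i : Fin r, V.a i * tracePrim (fun μ => c ⟨i, μ⟩) p +
      V.l i * ((traceH1 (fun μ => c ⟨i, μ⟩) p 1 ^ 2 - traceH1 (fun μ => c ⟨i, μ⟩) p 2) / 2) +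
      V.s i * ((traceH1 (fun μ => c ⟨i, μ⟩) p 1 ^ 2 + traceH1 (fun μ => c ⟨i, μ⟩) p 2) / 2) =
      p * F1 n d (toM V) i p (fun μ => red p c ⟨i, μ⟩) := by
    intro i
    have e0 : (fun μ => red p c ⟨i, μ⟩) = red p (fun μ => c ⟨i, μ⟩) := rfl
    unfold F1
    rw [dif_pos hp.out, e0]
    by_cases h : n i = 1
    · rw [if_pos h, if_neg (by omega), trH1 _ p 1 one_pos h, trH1 _ p 2 two_pos h, pow_one,
        Real.sqrt_sq hp0.le]
      have e2 : tracePrim (fun μ => c ⟨i, μ⟩) p = 0 := by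
        unfold tracePrim
        rw [if_neg (by omega)]
      rw [e2]
      obtain ⟨x, hx⟩ : ∃ x, ty (n i) (d i) p 1 (red p fun μ => c ⟨i, μ⟩) = x := ⟨_, rfl⟩
      obtain ⟨y, hy⟩ : ∃ y, ty (n i) (d i) p 2 (red p fun μ => c ⟨i, μ⟩) = y := ⟨_, rfl⟩
      rw [hx, hy]
      have e3 : (-(√(p : ℝ) * x)) ^ 2 = p * x ^ 2 := by
        rw [neg_sq, mul_pow, pow_two (√(p : ℝ)), hss]
      rw [e3]
      simp only [toM]
      ring
    · rw [if_neg h]
      have e1 : ∀ k, traceH1 (fun μ => c ⟨i, μ⟩) p k = 0 := by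
        intro k
        unfold traceH1
        rw [if_neg h]
      rw [e1, e1]
      by_cases h2 : n i = 2
      · rw [if_pos h2, trH2 _ p h2]
        simp only [toM]
        ring
      · rw [if_neg h2]
        have e2 : tracePrim (fun μ => c ⟨i, μ⟩) p = 0 := by
          unfold tracePrim
          rw [if_neg h2]
        rw [e2]
        ring
  have h2 : ∀ q : Fin r × Fin r, V.t q.1 q.2 *
      (traceH1 (fun μ => c ⟨q.1, μ⟩) p 1 * traceH1 (fun μ => c ⟨q.2, μ⟩) p 1) =
      p * ((toM V).t q.1 q.2 * (T1 n d q.1 p (fun μ => red p c ⟨q.1, μ⟩) *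
        T1 n d q.2 p (fun μ => red p c ⟨q.2, μ⟩))) := by
    intro q
    rw [T1_eq, T1_eq]
    obtain ⟨x, hx⟩ : ∃ x, T1 n d q.1 p (fun μ => red p c ⟨q.1, μ⟩) = x := ⟨_, rfl⟩
    obtain ⟨y, hy⟩ : ∃ y, T1 n d q.2 p (fun μ => red p c ⟨q.2, μ⟩) = y := ⟨_, rfl⟩
    rw [hx, hy]
    have e3 : -(√(p : ℝ) * x) * -(√(p : ℝ) * y) = (√(p : ℝ) * √(p : ℝ)) * (x * y) := by ring
    rw [e3, hss]
    simp only [toM]
    ring
  rw [div_eq_iff hp0.ne']
  unfold traceH2 BB pr
  have h3 : ∀ (A B C D E : ℝ), A + B + C + D + E = A + (B + C + D) + E := by intros; ring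
  rw [h3, ← Finset.sum_add_distrib, ← Finset.sum_add_distrib, Finset.sum_congr rfl fun i _ => h1 i,
    ← Finset.mul_sum, Finset.sum_congr rfl fun q _ => h2 q, ← Finset.mul_sum]
  ring

theorem YY_eq (V : Shape r) (c : (Σ i, Mon (n i + 1) (d i)) → ℤ) (p : ℕ) (hp : p.Prime)
    [Decidable (Good c p)] :
    YY n d (toM V) V.k p (red p c) = if Good c p then traceH2 V c p / p else 0 := by
  have : Fact p.Prime := ⟨hp⟩
  have h1 : Good c p ↔ ∀ i, Good1 p (fun μ => red p c ⟨i, μ⟩) := by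
    unfold Good
    constructor
    · rintro ⟨-, h⟩ i
      exact (good_iff _ p).1 (h i)
    · intro h
      exact ⟨hp, fun i => (good_iff _ p).2 (h i)⟩
  unfold YY badI
  rw [traceH2_eq]
  by_cases h : Good c p
  · rw [if_pos h, if_pos (h1.1 h), sub_zero, one_mul]
  · rw [if_neg h, if_neg (fun h2 => h (h1.2 h2)), sub_self, zero_mul]

end

end Pool.Agent.K1H81.HW
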