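import Pool.Agent.K1H81.HW.One

/-!
# The traces of the powers of Frobenius of a random hypersurface of any dimension
-/

set_option autoImplicit false
set_option linter.unusedSectionVars false

namespace Pool.Agent.K1H81.HW

open Finset hiding val
open Pool.Agent.Y722.HS Pool.Agent.X280.HG Pool.Agent.X280.BP Pool.Agent.X280.UC Pool.Agent.K1H81.HV

open Classical in
/-- The number of the points over the field with `p ^ k` elements, normalised: it is `(-1)^n` times the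
trace of the `k`-th power of the normalised Frobenius on the primitive part of `H^n`. -/
noncomputable def ty (n d p : ℕ) [Fact p.Prime] (k : ℕ) (c : Mon (n + 1) d → ZMod p) : ℝ :=
  ((((PF p (n + 1) k).filter fun v => ev c v = 0).card : ℝ) -
    ∑ i ∈ range (n + 1), ((p : ℝ) ^ k) ^ i) / √(((p : ℝ) ^ k) ^ n)

section
variable {p : ℕ} [hp : Fact p.Prime] {n d : ℕ}

theorem ty_eq (n d : ℕ) (k : ℕ) (hk : 0 < k) (A : Finset (NV p (n + 1)))
    (hA : ∀ j ∈ k.divisors, ∀ f : NV p (n + 1) → ℝ, (∀ v, f (Fr v) = f v) →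
      ∑ v ∈ DD p (n + 1) j, f v = j * ∑ x ∈ A with deg x = j, f x)
    (c : Mon (n + 1) d → ZMod p) :
    ty n d p k c = ∑ j ∈ k.divisors, j * SJ A j c / √(((p : ℝ) ^ k) ^ n) + mu p n k := by
  classical
  have h1 : (((PF p (n + 1) k).filter fun v => ev c v = 0).card : ℝ) =
      ∑ v ∈ PF p (n + 1) k, (if ev c v = 0 then (1 : ℝ) else 0) := by
    rw [Finset.sum_boole]
  have h2 : ∀ j ∈ k.divisors, ∑ v ∈ DD p (n + 1) j, (if ev c v = 0 then (1 : ℝ) else 0) =
      j * SJ A j c + ((DD p (n + 1) j).card : ℝ) / (p : ℝ) ^ j := by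
    intro j hj
    have h3 := hA j hj (fun v => zz v c) (fun v => zz_Fr v c)
    have h4 : ∑ v ∈ DD p (n + 1) j, (if ev c v = 0 then (1 : ℝ) else 0) =
        ∑ v ∈ DD p (n + 1) j, (zz v c + 1 / (p : ℝ) ^ j) := by
      refine Finset.sum_congr rfl fun v hv => ?_
      unfold zz
      rw [mem_DD.1 hv, sub_add_cancel]
    rw [h4, Finset.sum_add_distrib, h3, Finset.sum_const, nsmul_eq_mul, mul_one_div]
    rfl
  unfold ty mu
  rw [h1, sum_PF k hk, Finset.sum_congr rfl h2, Finset.sum_add_distrib, ← Finset.sum_div]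
  ring

end

/-- **The traces of the powers of Frobenius are a situation.** -/
theorem sit (r : ℕ) : ∃ C : (ℕ → ℕ) → ℝ, ∀ (n d : ℕ), 1 ≤ n → ∀ (p : ℕ) [Fact p.Prime],
    ∃ s : ℕ → (Mon (n + 1) d → ZMod p) → ℝ,
    Sit r (5 + 4 * r) C (Mon (n + 1) d → ZMod p) (EM p) s (ty n d p) (1 / √p) (d + 1) := by
  classical
  -- constants for one degree
  have h1 : ∀ j b : ℕ, ∃ C : ℝ, 0 ≤ C ∧ (1 ≤ j → ∀ (n : ℕ), 1 ≤ n → ∀ p : ℝ, 2 ≤ p → ∀ N : ℕ,
      |(j * N : ℝ) - (p ^ j) ^ (n + 1)| ≤ (2 + 2 * j) * (p ^ j) ^ (n + 1) / p →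
      |√j ^ b * ME (eb (p ^ j)) N b / √((p ^ j) ^ n) ^ b - gm b| ≤ C / √p) := by
    intro j b
    by_cases hj : 1 ≤ j
    · obtain ⟨C, hC0, hC⟩ := one_degree j b hj (2 + 2 * j) (by positivity)
      exact ⟨C, hC0, fun _ => hC⟩
    · exact ⟨0, le_rfl, fun h => absurd h hj⟩
  choose C0 hC00 hC0 using h1
  choose C hCn hC using fun b : ℕ → ℕ => prod_approx (Icc 1 r) (fun j => gm (b j))
    (fun j => C0 j (b j)) fun j => hC00 j (b j)
  refine ⟨C, fun n d hn p hpf => ?_⟩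
  obtain ⟨A, hA1, hA2⟩ := exists_A p (n + 1) r
  have hp2 : (2 : ℝ) ≤ p := by exact_mod_cast hpf.out.two_le
  have hp0 : (0 : ℝ) < p := by linarith
  have hp1 : (1 : ℝ) ≤ p := by linarith
  have hsp0 : 0 < √(p : ℝ) := Real.sqrt_pos.2 hp0
  have hsp1 : 1 ≤ √(p : ℝ) := Real.one_le_sqrt.2 hp1
  refine ⟨fun j c => √j * SJ A j c / √(((p : ℝ) ^ j) ^ n), EM_add' p, EM_mul' p, by positivity, ?_,
    fun k hk => ?_, fun b hb => ?_⟩
  · rw [div_le_one hsp0]
    exact hsp1
  · -- the representation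
    rw [Finset.mem_Icc] at hk
    have hsub : ∀ j ∈ k.divisors, j ∈ Icc 1 r := by
      intro j hj
      have h2 := Nat.divisor_le hj
      have h3 := Nat.pos_of_mem_divisors hj
      rw [Finset.mem_Icc]
      omega
    have hkr : (k : ℝ) ≤ r := by exact_mod_cast hk.2
    have hK : (5 + 4 * (k : ℝ)) / √p ≤ (5 + 4 * (r : ℝ)) * (1 / √p) := by
      rw [mul_one_div]
      gcongr
    refine ⟨fun j => √j * √(((p : ℝ) ^ j) ^ n) / √(((p : ℝ) ^ k) ^ n), mu p n k, fun j hj => ?_, ?_,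
      fun c => ?_⟩
    · obtain ⟨hjk, hlt⟩ := Nat.mem_properDivisors.1 hj
      have hj1 : 1 ≤ j := Nat.pos_of_dvd_of_pos hjk (by omega)
      have h2 : √(j : ℝ) ≤ j := by
        rw [Real.sqrt_le_left (by positivity)]
        have : (1 : ℝ) ≤ j := by exact_mod_cast hj1
        nlinarith
      have h3 : (j : ℝ) ≤ r := by
        have : j ≤ r := by omega
        exact_mod_cast this
      have h4 : √(((p : ℝ) ^ j) ^ n) * √p ≤ √(((p : ℝ) ^ k) ^ n) := by
        rw [← Real.sqrt_mul (by positivity)]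
        apply Real.sqrt_le_sqrt
        rw [← pow_mul, ← pow_mul, ← pow_succ]
        refine pow_le_pow_right₀ hp1 ?_
        nlinarith
      have h5 : 0 < √(((p : ℝ) ^ k) ^ n) := Real.sqrt_pos.2 (by positivity)
      rw [abs_of_nonneg (by positivity), mul_one_div, div_le_div_iff₀ h5 hsp0]
      calc √(j : ℝ) * √(((p : ℝ) ^ j) ^ n) * √p = √(j : ℝ) * (√(((p : ℝ) ^ j) ^ n) * √p) := by ring
        _ ≤ (5 + 4 * (r : ℝ)) * √(((p : ℝ) ^ k) ^ n) := by
            gcongr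
            have : (0 : ℝ) ≤ r := Nat.cast_nonneg _
            linarith
    · exact (mu_asy n k hn hk.1).trans hK
    · rw [ty_eq n d k (by omega) A (fun j hj => hA2 j (hsub j hj)) c,
        ← Nat.cons_self_properDivisors (by omega : k ≠ 0), Finset.sum_cons]
      congr 2
      · have h2 : √(k : ℝ) * √(k : ℝ) = k := Real.mul_self_sqrt (Nat.cast_nonneg _)
        rw [mul_div_assoc', ← mul_assoc, h2]
      · refine Finset.sum_congr rfl fun j hj => ?_
        have h2 : √(j : ℝ) * √(j : ℝ) = j := Real.mul_self_sqrt (Nat.cast_nonneg _)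
        have h3 : 0 < √(((p : ℝ) ^ j) ^ n) := Real.sqrt_pos.2 (by positivity)
        have h4 : 0 < √(((p : ℝ) ^ k) ^ n) := Real.sqrt_pos.2 (by positivity)
        have e : √(j : ℝ) * √(((p : ℝ) ^ j) ^ n) / √(((p : ℝ) ^ k) ^ n) *
            (√(j : ℝ) * SJ A j c / √(((p : ℝ) ^ j) ^ n)) =
            (√(j : ℝ) * √(j : ℝ)) * SJ A j c / √(((p : ℝ) ^ k) ^ n) := by
          field_simp
        rw [e, h2]
  · -- the moments
    have e1 : (fun c : Mon (n + 1) d → ZMod p =>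
        ∏ j ∈ Icc 1 r, (√(j : ℝ) * SJ A j c / √(((p : ℝ) ^ j) ^ n)) ^ b j) = fun c =>
        (∏ j ∈ Icc 1 r, (√(j : ℝ) / √(((p : ℝ) ^ j) ^ n)) ^ b j) * ∏ j ∈ Icc 1 r, SJ A j c ^ b j := by
      funext c
      rw [← Finset.prod_mul_distrib]
      refine Finset.prod_congr rfl fun j _ => ?_
      rw [← mul_pow]
      congr 1
      ring
    rw [e1, EM_mul', EM_joint r A hA1 b hb, ← Finset.prod_mul_distrib]
    refine hC b (1 / √p) (by positivity) (by rw [div_le_one hsp0]; exact hsp1) _ fun j hj => ?_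
    have hj1 := (Finset.mem_Icc.1 hj).1
    have h2 : (j * ((A.filter fun x => deg x = j).card : ℝ)) = ((DD p (n + 1) j).card : ℝ) := by
      have h3 := hA2 j hj (fun _ => 1) fun _ => rfl
      simp only [Finset.sum_const, nsmul_eq_mul, mul_one] at h3
      exact h3.symm
    have h4 := hC0 j (b j) hj1 n hn p hp2 (A.filter fun x => deg x = j).card (by
      rw [h2]
      exact DD_asy j (n + 1) hj1 (by omega))
    rw [mul_one_div]
    refine le_trans (le_of_eq ?_) h4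
    congr 2
    rw [div_pow]
    ring

/-- **The joint moments.** -/
theorem EM_mono (r : ℕ) (a : ℕ → ℕ) : ∃ C : ℝ, 0 ≤ C ∧ ∀ (n d : ℕ), 1 ≤ n →
    ∑ k ∈ Icc 1 r, k * a k ≤ d + 1 → ∀ (p : ℕ) [Fact p.Prime],
    |EM p (fun c : Mon (n + 1) d → ZMod p => ∏ k ∈ Icc 1 r, ty n d p k c ^ a k) - GG r a 0| ≤
      C / √p := by
  obtain ⟨C0, hC0⟩ := sit r
  obtain ⟨C, hC1, hC2⟩ := mixed r (5 + 4 * r) (by positivity) C0 _ a 0 rfl
  refine ⟨C, hC1, fun n d hn hd p hpf => ?_⟩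
  obtain ⟨s, hs⟩ := hC0 n d hn p
  have h1 := hC2 _ (EM p) s (ty n d p) (1 / √p) (d + 1) hs (by simpa using hd)
  rw [mul_one_div] at h1
  simpa using h1

end Pool.Agent.K1H81.HW
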