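import Pool.Agent.K1H81.HW.Inst
import Pool.Agent.K1H81.HV.Good
import Pool.Agent.X280.HG.Sigma

/-!
# The local data of products of hypersurfaces and Jacobians
-/

set_option autoImplicit false
set_option linter.unusedSectionVars false

namespace Pool.Agent.K1H81.HW

open Finset hiding val
open Pool.Agent.Y722.HS Pool.Agent.X280.HG Pool.Agent.X280.BP Pool.Agent.X280.UC Pool.Agent.K1H81.HV

/-- The exponents `(x, y)`. -/
def ab (x y : ℕ) (k : ℕ) : ℕ := if k = 1 then x else if k = 2 then y else 0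

theorem gm0 : gm 0 = 1 := by
  rw [show (0 : ℕ) = 2 * 0 by rfl, gm_even]
  simp [dd]

theorem gm1 : gm 1 = 0 := by
  rw [show (1 : ℕ) = 2 * 0 + 1 by rfl, gm_odd]

theorem gm2 : gm 2 = 1 := by
  have := gm_rec 0
  rw [gm0] at this
  simpa using this

theorem GG_ab (x y : ℕ) : GG 2 (ab x y) 0 = G1 1 x 0 * G1 2 y 0 := by
  unfold GG
  rw [show Icc 1 2 = {1, 2} by decide, Finset.prod_pair (by norm_num)]
  rfl

theorem G10 (k : ℕ) : G1 k 0 0 = 1 := by
  rw [G1, gm0]

theorem G11 : G1 1 1 0 = 0 := by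
  simp [G1, gm1, ev2]

theorem G12 : G1 1 2 0 = 1 := by
  simp [G1, gm2, gm1, ev2]

theorem G21 : G1 2 1 0 = 1 := by
  simp [G1, gm1, gm0, ev2]

/-- **The moments needed.** -/
theorem mom : ∃ C : ℝ, 1 ≤ C ∧ ∀ (n d : ℕ), 1 ≤ n → 3 ≤ d → ∀ (p : ℕ) [Fact p.Prime],
    |EM p (fun c : Mon (n + 1) d → ZMod p => ty n d p 1 c)| ≤ C / √p ∧
    |EM p (fun c : Mon (n + 1) d → ZMod p => ty n d p 1 c ^ 2) - 1| ≤ C / √p ∧
    |EM p (fun c : Mon (n + 1) d → ZMod p => ty n d p 2 c) - 1| ≤ C / √p ∧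
    EM p (fun c : Mon (n + 1) d → ZMod p => ty n d p 1 c ^ 4) ≤ C ∧
    EM p (fun c : Mon (n + 1) d → ZMod p => ty n d p 2 c ^ 2) ≤ C := by
  have h : ∀ x y : ℕ, ∃ C : ℝ, 0 ≤ C ∧ ∀ (n d : ℕ), 1 ≤ n → x + 2 * y ≤ d + 1 →
      ∀ (p : ℕ) [Fact p.Prime],
      |EM p (fun c : Mon (n + 1) d → ZMod p => ty n d p 1 c ^ x * ty n d p 2 c ^ y) -
        G1 1 x 0 * G1 2 y 0| ≤ C / √p := by
    intro x y
    obtain ⟨C, hC, h⟩ := EM_mono 2 (ab x y)
    refine ⟨C, hC, fun n d hn hd p hp => ?_⟩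
    have h1 := h n d hn (by
      rw [show Icc 1 2 = {1, 2} by decide, Finset.sum_pair (by norm_num)]
      simpa [ab] using hd) p
    rw [GG_ab] at h1
    have e : (fun c : Mon (n + 1) d → ZMod p => ∏ k ∈ Icc 1 2, ty n d p k c ^ ab x y k) =
        fun c => ty n d p 1 c ^ x * ty n d p 2 c ^ y := by
      funext c
      rw [show Icc 1 2 = {1, 2} by decide, Finset.prod_pair (by norm_num)]
      rfl
    rwa [e] at h1
  obtain ⟨C1, h10, h1⟩ := h 1 0
  obtain ⟨C2, h20, h2⟩ := h 2 0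
  obtain ⟨C3, h30, h3⟩ := h 0 1
  obtain ⟨C4, h40, h4⟩ := h 4 0
  obtain ⟨C5, h50, h5⟩ := h 0 2
  simp only [pow_zero, pow_one, mul_one, one_mul, G10, G11, G12, G21, sub_zero] at h1 h2 h3 h4 h5
  have a4 := abs_nonneg (G1 1 4 0)
  have a5 := abs_nonneg (G1 2 2 0)
  refine ⟨1 + C1 + C2 + C3 + C4 + C5 + |G1 1 4 0| + |G1 2 2 0|, by linarith,
    fun n d hn hd p hp => ?_⟩
  have hp1 : (1 : ℝ) ≤ p := by exact_mod_cast hp.out.one_lt.le
  have hs1 : 1 ≤ √(p : ℝ) := Real.one_le_sqrt.2 hp1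
  have hs0 : 0 < √(p : ℝ) := by linarith
  have hle : ∀ c : ℝ, c ≤ 1 + C1 + C2 + C3 + C4 + C5 + |G1 1 4 0| + |G1 2 2 0| →
      c / √(p : ℝ) ≤ (1 + C1 + C2 + C3 + C4 + C5 + |G1 1 4 0| + |G1 2 2 0|) / √(p : ℝ) := by
    intro c hc
    gcongr
  refine ⟨(h1 n d hn (by omega) p).trans (hle _ (by linarith)),
    (h2 n d hn (by omega) p).trans (hle _ (by linarith)),
    (h3 n d hn (by omega) p).trans (hle _ (by linarith)), ?_, ?_⟩
  · have h6 := (abs_le.1 (h4 n d hn (by omega) p)).2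
    have h7 : C4 / √(p : ℝ) ≤ C4 := div_le_self h40 hs1
    have h8 := le_abs_self (G1 1 4 0)
    linarith
  · have h6 := (abs_le.1 (h5 n d hn (by omega) p)).2
    have h7 : C5 / √(p : ℝ) ≤ C5 := div_le_self h50 hs1
    have h8 := le_abs_self (G1 2 2 0)
    linarith

section
variable {r : ℕ} {κ : Fin r → Type} [∀ i, Fintype (κ i)] [∀ i, DecidableEq (κ i)]

/-- The mean value of a function of one component. -/
theorem EM_comp (p : ℕ) [NeZero p] (i : Fin r) (g : (κ i → ZMod p) → ℝ) :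
    EM p (fun c : (Σ i, κ i) → ZMod p => g fun j => c ⟨i, j⟩) = EM p g := by
  classical
  have h := EM_sigma p (Function.update (fun (l : Fin r) (_ : κ l → ZMod p) => (1 : ℝ)) i g)
  rw [← Finset.mul_prod_erase univ _ (Finset.mem_univ i), Function.update_self,
    Finset.prod_eq_one fun l hl => ?_, mul_one] at h
  · rw [← h]
    congr 1
    funext c
    rw [← Finset.mul_prod_erase univ _ (Finset.mem_univ i), Function.update_self,
      Finset.prod_eq_one fun l hl => ?_, mul_one]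
    rw [Function.update_of_ne (Finset.ne_of_mem_erase hl)]
  · rw [Function.update_of_ne (Finset.ne_of_mem_erase hl)]
    exact EM_const' p 1

end

/-- Data: numbers of classes and multiplicities.  `a i` is the multiplicity of the primitive part of `H²` of
the surface `X_i`, `l i` and `s i` are those of the exterior and the symmetric square of `H¹` of the curve
`X_i`, and `t i j`, `i < j`, is that of `H¹(X_i) ⊗ H¹(X_j)`. -/
structure Mult (r : ℕ) where
  a : Fin r → ℝ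
  l : Fin r → ℝ
  s : Fin r → ℝ
  t : Fin r → Fin r → ℝ

section
variable {r : ℕ} (n d : Fin r → ℕ) (M : Mult r)

/-- The trace for one component. -/
noncomputable def F1 (i : Fin r) (p : ℕ) (c : Mon (n i + 1) (d i) → ZMod p) : ℝ :=
  if h : p.Prime then
    haveI : Fact p.Prime := ⟨h⟩
    (if n i = 1 then M.l i * ((ty (n i) (d i) p 1 c ^ 2 + ty (n i) (d i) p 2 c) / 2) +
      M.s i * ((ty (n i) (d i) p 1 c ^ 2 - ty (n i) (d i) p 2 c) / 2) else 0) +
    (if n i = 2 then M.a i * ty (n i) (d i) p 1 c else 0)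
  else 0

/-- The trace on `H¹` of a curve, up to the sign. -/
noncomputable def T1 (i : Fin r) (p : ℕ) (c : Mon (n i + 1) (d i) → ZMod p) : ℝ :=
  if h : p.Prime then
    haveI : Fact p.Prime := ⟨h⟩
    (if n i = 1 then ty (n i) (d i) p 1 c else 0)
  else 0

/-- The pairs `i < j`. -/
def pr (r : ℕ) : Finset (Fin r × Fin r) := univ.filter fun q => q.1 < q.2

/-- The predicted rank of the varying part. -/
noncomputable def rk : ℝ := ∑ i, if n i = 1 then M.l i else 0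

/-- The trace on the varying part of `H²`. -/
noncomputable def BB (p : ℕ) (c : (Σ i, Mon (n i + 1) (d i)) → ZMod p) : ℝ :=
  ∑ i, F1 n d M i p (fun μ => c ⟨i, μ⟩) +
    ∑ q ∈ pr r, M.t q.1 q.2 * (T1 n d q.1 p (fun μ => c ⟨q.1, μ⟩) *
      T1 n d q.2 p (fun μ => c ⟨q.2, μ⟩))

variable {n d M}

theorem F1_mom (hn : ∀ i, 1 ≤ n i) (hd : ∀ i, 3 ≤ d i) : ∃ C : ℝ, 1 ≤ C ∧ ∀ (i : Fin r) (p : ℕ)
    [Fact p.Prime], |EM p (F1 n d M i p) - (if n i = 1 then M.l i else 0)| ≤ C / √p ∧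
      EM p (fun c => F1 n d M i p c ^ 2) ≤ C ∧ |EM p (T1 n d i p)| ≤ C / √p ∧
      EM p (fun c => T1 n d i p c ^ 2) ≤ C := by
  obtain ⟨C, hC1, hC⟩ := mom
  set A : ℝ := ∑ i, (|M.l i| + |M.s i| + |M.a i|) with hA
  have hA0 : 0 ≤ A := Finset.sum_nonneg fun i _ => by positivity
  have hAi : ∀ i, |M.l i| + |M.s i| + |M.a i| ≤ A := fun i =>
    Finset.single_le_sum (f := fun i => |M.l i| + |M.s i| + |M.a i|) (fun i _ => by positivity)
      (Finset.mem_univ i)
  refine ⟨(1 + A) * C + C + 1 + 3 * A ^ 2 * (3 * C + 1) + 1, by nlinarith, fun i p hp => ?_⟩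
  have hp1 : (1 : ℝ) ≤ p := by exact_mod_cast hp.out.one_lt.le
  have hs1 : 1 ≤ √(p : ℝ) := Real.one_le_sqrt.2 hp1
  have hs0 : 0 < √(p : ℝ) := by linarith
  obtain ⟨m1, m2, m3, m4, m5⟩ := hC (n i) (d i) (hn i) (hd i) p
  have hCp : C / √(p : ℝ) ≤ C := div_le_self (by linarith) hs1
  have m2' : EM p (fun c : Mon (n i + 1) (d i) → ZMod p => ty (n i) (d i) p 1 c ^ 2) ≤ 1 + C := by
    have := (abs_le.1 m2).2
    linarith
  have hAl : |M.l i| ≤ A := by
    have := hAi i; have := abs_nonneg (M.s i); have := abs_nonneg (M.a i); linarith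
  have hAs : |M.s i| ≤ A := by
    have := hAi i; have := abs_nonneg (M.l i); have := abs_nonneg (M.a i); linarith
  have hAa : |M.a i| ≤ A := by
    have := hAi i; have := abs_nonneg (M.l i); have := abs_nonneg (M.s i); linarith
  have hA2 : 0 ≤ A ^ 2 := sq_nonneg A
  have hF : F1 n d M i p = fun c =>
      (if n i = 1 then M.l i * ((ty (n i) (d i) p 1 c ^ 2 + ty (n i) (d i) p 2 c) / 2) +
      M.s i * ((ty (n i) (d i) p 1 c ^ 2 - ty (n i) (d i) p 2 c) / 2) else 0) +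
      (if n i = 2 then M.a i * ty (n i) (d i) p 1 c else 0) := by
    funext c
    unfold F1
    rw [dif_pos hp.out]
  have hT : T1 n d i p = fun c => (if n i = 1 then ty (n i) (d i) p 1 c else 0) := by
    funext c
    unfold T1
    rw [dif_pos hp.out]
  have hA2C : 0 ≤ A ^ 2 * C := by positivity
  have hAC : 0 ≤ A * C := by positivity
  have key : (A * C) / √(p : ℝ) ≤ ((1 + A) * C + C + 1 + 3 * A ^ 2 * (3 * C + 1) + 1) / √(p : ℝ) := by
    gcongr
    nlinarith
  have key1 : C / √(p : ℝ) ≤ ((1 + A) * C + C + 1 + 3 * A ^ 2 * (3 * C + 1) + 1) / √(p : ℝ) := by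
    gcongr
    nlinarith
  refine ⟨?_, ?_, ?_, ?_⟩
  · by_cases h1 : n i = 1
    · have h2 : n i ≠ 2 := by omega
      rw [hF]
      simp only [if_pos h1, if_neg h2, add_zero]
      have e : (fun c : Mon (n i + 1) (d i) → ZMod p =>
          M.l i * ((ty (n i) (d i) p 1 c ^ 2 + ty (n i) (d i) p 2 c) / 2) +
          M.s i * ((ty (n i) (d i) p 1 c ^ 2 - ty (n i) (d i) p 2 c) / 2)) = fun c =>
          ((M.l i + M.s i) / 2) * ty (n i) (d i) p 1 c ^ 2 +
          ((M.l i - M.s i) / 2) * ty (n i) (d i) p 2 c := by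
        funext c; ring
      rw [e, EM_add', EM_mul', EM_mul']
      have e2 : (M.l i + M.s i) / 2 * EM p (fun c => ty (n i) (d i) p 1 c ^ 2) +
          (M.l i - M.s i) / 2 * EM p (fun c => ty (n i) (d i) p 2 c) - M.l i =
          (M.l i + M.s i) / 2 * (EM p (fun c => ty (n i) (d i) p 1 c ^ 2) - 1) +
          (M.l i - M.s i) / 2 * (EM p (fun c => ty (n i) (d i) p 2 c) - 1) := by ring
      rw [e2]
      refine (abs_add_le _ _).trans (le_trans ?_ key)
      rw [abs_mul, abs_mul]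
      have h3 : |(M.l i + M.s i) / 2| ≤ A / 2 := by
        rw [abs_div, abs_of_pos (by norm_num : (0 : ℝ) < 2)]
        have := abs_add_le (M.l i) (M.s i)
        have := hAi i
        have := abs_nonneg (M.a i)
        linarith
      have h4 : |(M.l i - M.s i) / 2| ≤ A / 2 := by
        rw [abs_div, abs_of_pos (by norm_num : (0 : ℝ) < 2)]
        have := abs_sub (M.l i) (M.s i)
        have := hAi i
        have := abs_nonneg (M.a i)
        linarith
      calc _ ≤ A / 2 * (C / √(p : ℝ)) + A / 2 * (C / √(p : ℝ)) := by gcongr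
        _ = _ := by ring
    · rw [hF]
      simp only [if_neg h1, zero_add, sub_zero]
      by_cases h2 : n i = 2
      · simp only [if_pos h2]
        rw [EM_mul', abs_mul]
        refine le_trans ?_ key
        calc _ ≤ A * (C / √(p : ℝ)) := by gcongr
          _ = _ := by ring
      · simp only [if_neg h2]
        rw [EM_const', abs_zero]
        have : 0 ≤ (A * C) / √(p : ℝ) := by positivity
        linarith
  · rw [hF]
    have h6 : EM p (fun c : Mon (n i + 1) (d i) → ZMod p =>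
        ((if n i = 1 then M.l i * ((ty (n i) (d i) p 1 c ^ 2 + ty (n i) (d i) p 2 c) / 2) +
        M.s i * ((ty (n i) (d i) p 1 c ^ 2 - ty (n i) (d i) p 2 c) / 2) else 0) +
        (if n i = 2 then M.a i * ty (n i) (d i) p 1 c else 0)) ^ 2) ≤
        EM p (fun c : Mon (n i + 1) (d i) → ZMod p => (3 * A ^ 2) *
          (ty (n i) (d i) p 1 c ^ 4 + ty (n i) (d i) p 2 c ^ 2 + ty (n i) (d i) p 1 c ^ 2)) := by
      refine EM_monoV p _ _ fun c => ?_
      obtain ⟨x, hx⟩ : ∃ x, ty (n i) (d i) p 1 c = x := ⟨_, rfl⟩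
      obtain ⟨y, hy⟩ : ∃ y, ty (n i) (d i) p 2 c = y := ⟨_, rfl⟩
      rw [hx, hy]
      have hl2 : M.l i ^ 2 ≤ A ^ 2 := by
        rw [← sq_abs]; exact pow_le_pow_left₀ (abs_nonneg _) hAl 2
      have hs2 : M.s i ^ 2 ≤ A ^ 2 := by
        rw [← sq_abs]; exact pow_le_pow_left₀ (abs_nonneg _) hAs 2
      have ha2 : M.a i ^ 2 ≤ A ^ 2 := by
        rw [← sq_abs]; exact pow_le_pow_left₀ (abs_nonneg _) hAa 2
      have hx4 : 0 ≤ x ^ 4 := by positivity
      have hx2 : 0 ≤ x ^ 2 := sq_nonneg _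
      have hy2 : 0 ≤ y ^ 2 := sq_nonneg _
      by_cases h1 : n i = 1
      · have h2 : n i ≠ 2 := by omega
        rw [if_pos h1, if_neg h2, add_zero]
        have u1 : (M.l i * ((x ^ 2 + y) / 2) + M.s i * ((x ^ 2 - y) / 2)) ^ 2 ≤
            2 * (M.l i ^ 2 * ((x ^ 2 + y) / 2) ^ 2 + M.s i ^ 2 * ((x ^ 2 - y) / 2) ^ 2) := by
          nlinarith [sq_nonneg (M.l i * ((x ^ 2 + y) / 2) - M.s i * ((x ^ 2 - y) / 2))]
        have u2 : M.l i ^ 2 * ((x ^ 2 + y) / 2) ^ 2 ≤ A ^ 2 * ((x ^ 2 + y) / 2) ^ 2 := by gcongr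
        have u3 : M.s i ^ 2 * ((x ^ 2 - y) / 2) ^ 2 ≤ A ^ 2 * ((x ^ 2 - y) / 2) ^ 2 := by gcongr
        have u4 : A ^ 2 * ((x ^ 2 + y) / 2) ^ 2 + A ^ 2 * ((x ^ 2 - y) / 2) ^ 2 =
            A ^ 2 * (x ^ 4 + y ^ 2) / 2 := by ring
        have u5 : 0 ≤ A ^ 2 * (x ^ 4 + y ^ 2) := by positivity
        have u6 : 0 ≤ A ^ 2 * x ^ 2 := by positivity
        nlinarith
      · rw [if_neg h1, zero_add]
        by_cases h2 : n i = 2
        · rw [if_pos h2, mul_pow]
          have u1 : M.a i ^ 2 * x ^ 2 ≤ A ^ 2 * x ^ 2 := by gcongr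
          have u5 : 0 ≤ A ^ 2 * (x ^ 4 + y ^ 2) := by positivity
          have u6 : 0 ≤ A ^ 2 * x ^ 2 := by positivity
          nlinarith
        · rw [if_neg h2]
          have : 0 ≤ 3 * A ^ 2 * (x ^ 4 + y ^ 2 + x ^ 2) := by positivity
          simpa using this
    refine h6.trans ?_
    rw [EM_mul', EM_add', EM_add']
    calc 3 * A ^ 2 * (EM p (fun c : Mon (n i + 1) (d i) → ZMod p => ty (n i) (d i) p 1 c ^ 4) +
          EM p (fun c : Mon (n i + 1) (d i) → ZMod p => ty (n i) (d i) p 2 c ^ 2) +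
          EM p (fun c : Mon (n i + 1) (d i) → ZMod p => ty (n i) (d i) p 1 c ^ 2)) ≤
        3 * A ^ 2 * (C + C + (1 + C)) := by gcongr
      _ ≤ _ := by nlinarith
  · rw [hT]
    by_cases h1 : n i = 1
    · simp only [if_pos h1]
      exact m1.trans key1
    · simp only [if_neg h1]
      rw [EM_const', abs_zero]
      have : 0 ≤ C / √(p : ℝ) := by positivity
      linarith
  · rw [hT]
    by_cases h1 : n i = 1
    · simp only [if_pos h1]
      nlinarith
    · simp only [if_neg h1, zero_pow two_ne_zero]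
      rw [EM_const']
      nlinarith

end

end Pool.Agent.K1H81.HW
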