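import Pool.Agent.K1H81.HV.Gs

/-!
# The moments for one degree, in all dimensions
-/

set_option autoImplicit false
set_option linter.unusedSectionVars false

namespace Pool.Agent.K1H81.HW

open Finset hiding val
open Pool.Agent.Y722.HS Pool.Agent.X280.HG Pool.Agent.X280.BP Pool.Agent.X280.UC Pool.Agent.K1H81.HV

/-- **The moments for one degree.** -/
theorem one_degree (j b : ℕ) (hj : 1 ≤ j) (K : ℝ) (hK : 0 ≤ K) : ∃ C : ℝ, 0 ≤ C ∧
    ∀ (n : ℕ), 1 ≤ n → ∀ p : ℝ, 2 ≤ p → ∀ N : ℕ,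
    |(j * N : ℝ) - (p ^ j) ^ (n + 1)| ≤ K * (p ^ j) ^ (n + 1) / p →
    |√j ^ b * ME (eb (p ^ j)) N b / √((p ^ j) ^ n) ^ b - gm b| ≤ C / √p := by
  obtain ⟨C, hC0, hC⟩ := exists_asy b
  have hj0 : (0 : ℝ) < j := by exact_mod_cast hj
  have hj1 : (1 : ℝ) ≤ j := by exact_mod_cast hj
  refine ⟨√j ^ b * C * (1 + K) ^ (b / 2) +
    |gm b| * ((b / 2 : ℕ) * (1 + K) ^ (b / 2) * (1 + 2 * K)), by positivity, ?_⟩
  intro n hn p hp N hN
  have hp0 : 0 < p := by linarith
  have hsp0 : 0 < √p := Real.sqrt_pos.2 hp0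
  have hsp : √p * √p = p := Real.mul_self_sqrt hp0.le
  have hsp1 : 1 ≤ √p := Real.one_le_sqrt.2 (by linarith)
  have hspp : √p ≤ p := by nlinarith
  obtain ⟨Q, hQ⟩ : ∃ Q, p ^ j = Q := ⟨_, rfl⟩
  rw [hQ] at hN ⊢
  have hpQ : p ≤ Q := by
    rw [← hQ]
    calc p = p ^ 1 := (pow_one p).symm
      _ ≤ p ^ j := pow_le_pow_right₀ (by linarith) hj
  have hQ0 : 0 < Q := by linarith
  have hQ1 : 1 ≤ Q := by linarith
  obtain ⟨S, hS⟩ : ∃ S, Q ^ n = S := ⟨_, rfl⟩
  have hpS : p ≤ S := by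
    rw [← hS]
    refine hpQ.trans ?_
    calc Q = Q ^ 1 := (pow_one Q).symm
      _ ≤ Q ^ n := pow_le_pow_right₀ hQ1 hn
  have hS0 : 0 < S := by linarith
  have hS1 : 1 ≤ S := by linarith
  rw [hS]
  obtain ⟨s, hs⟩ : ∃ s, √S = s := ⟨_, rfl⟩
  have hs2 : s * s = S := by rw [← hs]; exact Real.mul_self_sqrt hS0.le
  have hs0 : 0 < s := by rw [← hs]; exact Real.sqrt_pos.2 hS0
  have hps : √p ≤ s := by rw [← hs]; exact Real.sqrt_le_sqrt hpS
  rw [hs]
  rw [pow_succ, hS] at hN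
  -- the ratio
  obtain ⟨w, hw⟩ : ∃ w, (j * N : ℝ) / (S * Q) = w := ⟨_, rfl⟩
  have hw0 : 0 ≤ w := by rw [← hw]; positivity
  have hw1 : |w - 1| ≤ K / p := by
    have e : w - 1 = ((j * N : ℝ) - S * Q) / (S * Q) := by
      rw [← hw]
      field_simp
    rw [e, abs_div, abs_of_pos (by positivity : 0 < S * Q), div_le_iff₀ (by positivity)]
    refine hN.trans (le_of_eq ?_)
    ring
  have hKp : K / p ≤ K := div_le_self hK (by linarith)
  have hw2 : w ≤ 1 + K := by
    have := (abs_le.1 hw1).2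
    linarith
  have hjN : (j * N : ℝ) = w * (S * Q) := by
    rw [← hw]
    field_simp
  -- the variance
  obtain ⟨x, hx⟩ : ∃ x, (N : ℝ) * (1 / Q * (1 - 1 / Q)) = x := ⟨_, rfl⟩
  have hiQ : 0 ≤ 1 - 1 / Q := by
    rw [sub_nonneg, div_le_one hQ0]
    exact hQ1
  have hiQ1 : 1 - 1 / Q ≤ 1 := by
    have : 0 ≤ 1 / Q := by positivity
    linarith
  have hx0 : 0 ≤ x := by rw [← hx]; positivity
  obtain ⟨y, hy⟩ : ∃ y, j * x / S = y := ⟨_, rfl⟩
  have hyw : y = w * (1 - 1 / Q) := by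
    rw [← hy, ← hx]
    have e : j * ((N : ℝ) * (1 / Q * (1 - 1 / Q))) = (j * N : ℝ) * (1 / Q * (1 - 1 / Q)) := by ring
    rw [e, hjN]
    field_simp
  have hy0 : 0 ≤ y := by rw [hyw]; positivity
  have hy1 : y ≤ 1 + K := by
    rw [hyw]
    calc w * (1 - 1 / Q) ≤ w * 1 := by gcongr
      _ ≤ 1 + K := by linarith
  have hjx : j * x = y * S := by
    rw [← hy]
    field_simp
  have hy2 : |y - 1| ≤ (1 + 2 * K) / p := by
    have e : y - 1 = (w - 1) - w * (1 / Q) := by rw [hyw]; ring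
    have h1 : |w * (1 / Q)| ≤ (1 + K) / p := by
      rw [abs_of_nonneg (by positivity), mul_one_div]
      gcongr
    rw [e]
    calc _ ≤ _ := abs_sub _ _
      _ ≤ K / p + (1 + K) / p := add_le_add hw1 h1
      _ = _ := by ring
  obtain ⟨R, hR⟩ : ∃ R, (1 + K) * S = R := ⟨_, rfl⟩
  have hR1 : 1 ≤ R := by rw [← hR]; nlinarith
  have hSR : S ≤ R := by rw [← hR]; nlinarith
  have hxR : (N : ℝ) * (1 / Q * (1 - 1 / Q)) ≤ R := by
    rw [hx, ← hR]
    calc x ≤ j * x := le_mul_of_one_le_left hx0 hj1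
      _ = y * S := hjx
      _ ≤ _ := by gcongr
  have key := hC (eb Q) _ (adm_eb hQ1) N R hR1 hxR
  rw [hx] at key
  obtain ⟨M, hM⟩ : ∃ M, ME (eb Q) N b = M := ⟨_, rfl⟩
  rw [hM] at key ⊢
  have hsq : √(j : ℝ) * √(j : ℝ) = j := Real.mul_self_sqrt hj0.le
  rcases Nat.even_or_odd b with hb | hb
  · obtain ⟨h, rfl⟩ : ∃ h, b = 2 * h := by
      obtain ⟨a, ha⟩ := hb
      exact ⟨a, by omega⟩
    rw [if_pos hb, show 2 * h / 2 = h by omega] at key
    rw [show 2 * h / 2 = h by omega]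
    have e1 : √(j : ℝ) ^ (2 * h) = (j : ℝ) ^ h := by
      rw [pow_mul, pow_two, hsq]
    have e2 : s ^ (2 * h) = S ^ h := by rw [pow_mul, pow_two, hs2]
    rw [e1, e2]
    have hSh : 0 < S ^ h := by positivity
    have hfin : ((j : ℝ) ^ h * C * (1 + K) ^ h + |gm (2 * h)| * (h * (1 + K) ^ h * (1 + 2 * K))) / p ≤
        ((j : ℝ) ^ h * C * (1 + K) ^ h + |gm (2 * h)| * (h * (1 + K) ^ h * (1 + 2 * K))) / √p := by
      refine div_le_div_of_nonneg_left (by positivity) hsp0 hspp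
    refine le_trans ?_ hfin
    have b1 : |(j : ℝ) ^ h * M / S ^ h - gm (2 * h) * y ^ h| ≤ (j : ℝ) ^ h * C * (1 + K) ^ h / p := by
      have e3 : (j : ℝ) ^ h * M / S ^ h - gm (2 * h) * y ^ h =
          (j : ℝ) ^ h * (M - gm (2 * h) * x ^ h) / S ^ h := by
        rw [← hy, div_pow, mul_pow]
        field_simp
      rw [e3, abs_div, abs_of_pos hSh, abs_mul, abs_of_pos (by positivity : (0 : ℝ) < (j : ℝ) ^ h),
        div_le_div_iff₀ hSh hp0]
      calc (j : ℝ) ^ h * |M - gm (2 * h) * x ^ h| * p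
          ≤ (j : ℝ) ^ h * |M - gm (2 * h) * x ^ h| * R := by
            gcongr
            exact hpS.trans hSR
        _ = (j : ℝ) ^ h * (|M - gm (2 * h) * x ^ h| * R) := by ring
        _ ≤ (j : ℝ) ^ h * (C * R ^ h) := by gcongr
        _ = _ := by rw [← hR, mul_pow]; ring
    have b2 : |gm (2 * h) * y ^ h - gm (2 * h)| ≤
        |gm (2 * h)| * (h * (1 + K) ^ h * (1 + 2 * K)) / p := by
      have e5 : gm (2 * h) * y ^ h - gm (2 * h) = gm (2 * h) * (y ^ h - 1) := by ring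
      rw [e5, abs_mul, mul_div_assoc]
      refine mul_le_mul_of_nonneg_left ?_ (abs_nonneg _)
      refine (pow_sub_one (by linarith) hy0 hy1 hy2 h).trans (le_of_eq ?_)
      ring
    have e8 : (j : ℝ) ^ h * M / S ^ h - gm (2 * h) =
        ((j : ℝ) ^ h * M / S ^ h - gm (2 * h) * y ^ h) + (gm (2 * h) * y ^ h - gm (2 * h)) := by ring
    rw [e8, add_div]
    exact (abs_add_le _ _).trans (add_le_add b1 b2)
  · obtain ⟨h, rfl⟩ := hb
    rw [if_neg (Nat.not_even_iff_odd.mpr ⟨h, rfl⟩), show (2 * h + 1) / 2 = h by omega, gm_odd,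
      zero_mul, sub_zero, mul_one] at key
    rw [gm_odd, sub_zero, abs_zero, zero_mul, add_zero, show (2 * h + 1) / 2 = h by omega]
    have e3 : s ^ (2 * h + 1) = S ^ h * s := by
      rw [pow_succ, pow_mul, pow_two, hs2]
    have hpos : 0 < S ^ h * s := by positivity
    rw [e3, abs_div, abs_of_pos hpos, div_le_div_iff₀ hpos hsp0, abs_mul,
      abs_of_nonneg (by positivity : (0 : ℝ) ≤ √(j : ℝ) ^ (2 * h + 1))]
    calc √(j : ℝ) ^ (2 * h + 1) * |M| * √p ≤ √(j : ℝ) ^ (2 * h + 1) * (C * R ^ h) * s := by gcongr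
      _ = _ := by rw [← hR, mul_pow]; ring

section
variable {p : ℕ} [hp : Fact p.Prime]

/-- The expected value of the trace of the `k`-th power of Frobenius. -/
noncomputable def mu (p : ℕ) [Fact p.Prime] (n k : ℕ) : ℝ :=
  (∑ j ∈ k.divisors, ((DD p (n + 1) j).card : ℝ) / (p : ℝ) ^ j -
    ∑ i ∈ range (n + 1), ((p : ℝ) ^ k) ^ i) / √(((p : ℝ) ^ k) ^ n)

theorem mu_asy (n k : ℕ) (hn : 1 ≤ n) (hk : 1 ≤ k) :
    |mu p n k - (if Even k then 1 else 0)| ≤ (5 + 4 * k) / √p := by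
  classical
  have hp2 : (2 : ℝ) ≤ p := by exact_mod_cast hp.out.two_le
  have hp0 : (0 : ℝ) < p := by linarith
  have hp1 : (1 : ℝ) ≤ p := by linarith
  have hsp0 : 0 < √(p : ℝ) := Real.sqrt_pos.2 hp0
  have hsp : √(p : ℝ) * √(p : ℝ) = p := Real.mul_self_sqrt hp0.le
  have hsp1 : 1 ≤ √(p : ℝ) := Real.one_le_sqrt.2 (by linarith)
  have hspp : √(p : ℝ) ≤ p := by nlinarith
  have h1 := card_PF_div (p := p) (n + 1) k hk
  rw [← Nat.cons_self_properDivisors (by omega : k ≠ 0), Finset.sum_cons, card_PF (n + 1) k hk]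
    at h1
  set Q : ℝ := (p : ℝ) ^ k with hQ
  have hpQ : (p : ℝ) ≤ Q := by
    calc (p : ℝ) = (p : ℝ) ^ 1 := (pow_one _).symm
      _ ≤ (p : ℝ) ^ k := pow_le_pow_right₀ hp1 hk
  have hQ0 : 0 < Q := by linarith
  have hQ1 : 1 ≤ Q := by linarith
  have hQn : 0 < Q ^ n := by positivity
  have hQn1 : 1 ≤ Q ^ n := one_le_pow₀ hQ1
  obtain ⟨s, hs⟩ : ∃ s, √(Q ^ n) = s := ⟨_, rfl⟩
  have hs2 : s * s = Q ^ n := by rw [← hs]; exact Real.mul_self_sqrt hQn.le
  have hs0 : 0 < s := by rw [← hs]; exact Real.sqrt_pos.2 hQn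
  have hs1 : 1 ≤ s := by rw [← hs]; exact Real.one_le_sqrt.2 hQn1
  -- the main terms cancel
  have hmu : mu p n k = (1 / Q + ∑ j ∈ k.properDivisors, ((DD p (n + 1) j).card : ℝ) *
      (1 / (p : ℝ) ^ j - 1 / Q)) / s := by
    unfold mu
    rw [← Nat.cons_self_properDivisors (by omega : k ≠ 0), Finset.sum_cons, ← hQ, hs]
    congr 1
    have e1 : ((DD p (n + 1) k).card : ℝ) = ∑ i ∈ range (n + 1 + 1), Q ^ i -
        ∑ j ∈ k.properDivisors, ((DD p (n + 1) j).card : ℝ) := by linarith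
    have e2 : (∑ i ∈ range (n + 1 + 1), Q ^ i) / Q = ∑ i ∈ range (n + 1), Q ^ i + 1 / Q := by
      rw [Finset.sum_range_succ', pow_zero, add_div]
      congr 1
      rw [Finset.sum_div]
      refine Finset.sum_congr rfl fun i _ => ?_
      rw [pow_succ]
      field_simp
    rw [e1, sub_div, e2]
    simp only [mul_sub, mul_one_div]
    rw [Finset.sum_sub_distrib, ← Finset.sum_div]
    ring
  -- the single terms
  have hterm : ∀ j ∈ k.properDivisors, |((DD p (n + 1) j).card : ℝ) *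
      (1 / (p : ℝ) ^ j - 1 / Q) / s - (if 2 * j = k then 1 else 0)| ≤
        (if 2 * j = k then (2 + 2 * (k : ℝ)) / √p else 0) + 2 / √p := by
    intro j hj
    obtain ⟨hjk, hlt⟩ := Nat.mem_properDivisors.1 hj
    have hj1 : 1 ≤ j := Nat.pos_of_dvd_of_pos hjk (by omega)
    have h5 : 2 * j ≤ k := by
      obtain ⟨l, rfl⟩ := hjk
      have : 2 ≤ l := by
        by_contra hcon
        interval_cases l <;> omega
      nlinarith
    set q : ℝ := (p : ℝ) ^ j with hq
    have hpq : (p : ℝ) ≤ q := by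
      calc (p : ℝ) = (p : ℝ) ^ 1 := (pow_one _).symm
        _ ≤ (p : ℝ) ^ j := pow_le_pow_right₀ hp1 hj1
    have hq0 : 0 < q := by linarith
    have hM := DD_le (p := p) (n + 1) j hj1
    rw [← hq] at hM
    set M : ℝ := ((DD p (n + 1) j).card : ℝ) with hMd
    have hM0 : 0 ≤ M := by positivity
    by_cases h2j : 2 * j = k
    · rw [if_pos h2j, if_pos h2j]
      have hQq : Q = q * q := by
        rw [hQ, ← h2j, two_mul, pow_add]
      have hsq : s = q ^ n := by
        rw [← hs, hQq, mul_pow, Real.sqrt_mul_self (by positivity)]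
      have hA := DD_asy (p := p) j (n + 1) hj1 (by omega)
      rw [← hq, ← hMd] at hA
      have hqn : q ^ (n + 1) = q * s := by
        rw [hsq, pow_succ]
        ring
      rw [hqn] at hA hM
      have e1 : M * (1 / q - 1 / Q) / s - 1 = (M - q * s) / (q * s) -
          M / (Q * s) := by
        field_simp
        ring
      have b1 : |(M - q * s) / (q * s)| ≤ (2 + 2 * (k : ℝ)) / p := by
        rw [abs_div, abs_of_pos (by positivity : 0 < q * s), div_le_iff₀ (by positivity)]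
        refine hA.trans ?_
        rw [div_mul_eq_mul_div]
        have hjk' : (j : ℝ) ≤ k := by exact_mod_cast hlt.le
        gcongr
      have b2 : |M / (Q * s)| ≤ 2 / p := by
        rw [abs_of_nonneg (by positivity), div_le_div_iff₀ (by positivity) hp0]
        calc M * p ≤ (2 * (q * s)) * q := by gcongr
          _ = _ := by rw [hQq]; ring
      rw [e1]
      refine (abs_sub _ _).trans ((add_le_add b1 b2).trans ?_)
      refine add_le_add ?_ ?_
      · exact div_le_div_of_nonneg_left (by positivity) hsp0 hspp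
      · exact div_le_div_of_nonneg_left (by positivity) hsp0 hspp
    · rw [if_neg h2j, if_neg h2j, sub_zero, zero_add]
      have hqQ : q ≤ Q := pow_le_pow_right₀ hp1 (by omega)
      have h6 : 0 ≤ 1 / q - 1 / Q := by
        rw [sub_nonneg]
        exact one_div_le_one_div_of_le hq0 hqQ
      have h7 : 1 / q - 1 / Q ≤ 1 / q := by
        have : 0 ≤ 1 / Q := by positivity
        linarith
      rw [abs_of_nonneg (by positivity)]
      have h8 : q ^ n * √(p : ℝ) ≤ s := by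
        rw [← hs, ← Real.sqrt_sq (by positivity : 0 ≤ q ^ n * √(p : ℝ))]
        apply Real.sqrt_le_sqrt
        rw [mul_pow, Real.sq_sqrt hp0.le, hq, hQ, ← pow_mul, ← pow_mul, ← pow_mul, ← pow_succ]
        refine pow_le_pow_right₀ hp1 ?_
        have h9 : 2 * j + 1 ≤ k := by omega
        nlinarith
      calc M * (1 / q - 1 / Q) / s ≤ (2 * q ^ (n + 1)) * (1 / q) / s := by gcongr
        _ = 2 * q ^ n / s := by
            rw [pow_succ]
            field_simp
        _ ≤ 2 / √p := by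
            rw [div_le_div_iff₀ hs0 hsp0, mul_assoc]
            gcongr
  -- the sum
  have hsum1 : ∑ j ∈ k.properDivisors, (if 2 * j = k then (1 : ℝ) else 0) =
      if Even k then 1 else 0 := by
    by_cases he : Even k
    · obtain ⟨l, hl⟩ := he
      rw [if_pos ⟨l, hl⟩, Finset.sum_eq_single l]
      · rw [if_pos (by omega)]
      · intro b _ hb
        rw [if_neg (by omega)]
      · intro h
        exfalso
        apply h
        rw [Nat.mem_properDivisors]
        exact ⟨⟨2, by omega⟩, by omega⟩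
    · rw [if_neg he]
      refine Finset.sum_eq_zero fun j _ => ?_
      rw [if_neg]
      intro h
      exact he ⟨j, by omega⟩
  have hsum2 : ∑ j ∈ k.properDivisors, ((if 2 * j = k then (2 + 2 * (k : ℝ)) / √p else 0) + 2 / √p) ≤
      (2 + 2 * (k : ℝ)) / √p + 2 * k / √p := by
    rw [Finset.sum_add_distrib]
    refine add_le_add ?_ ?_
    · have e : ∀ j ∈ k.properDivisors, (if 2 * j = k then (2 + 2 * (k : ℝ)) / √p else 0) =
          (2 + 2 * (k : ℝ)) / √p * (if 2 * j = k then 1 else 0) := by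
        intro j _
        split_ifs <;> simp
      rw [Finset.sum_congr rfl e, ← Finset.mul_sum, hsum1]
      have : 0 ≤ (2 + 2 * (k : ℝ)) / √p := by positivity
      split_ifs <;> linarith
    · rw [Finset.sum_const, nsmul_eq_mul]
      have h7 : (k.properDivisors.card : ℝ) ≤ k := by
        have : k.properDivisors ⊆ Finset.Ico 1 k := by
          intro j hj
          obtain ⟨hjk, hlt⟩ := Nat.mem_properDivisors.1 hj
          exact Finset.mem_Ico.2 ⟨Nat.pos_of_dvd_of_pos hjk (by omega), hlt⟩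
        have h8 := Finset.card_le_card this
        rw [Nat.card_Ico] at h8
        have : k.properDivisors.card ≤ k := by omega
        exact_mod_cast this
      calc (k.properDivisors.card : ℝ) * (2 / √p) ≤ k * (2 / √p) := by
            gcongr
        _ = _ := by ring
  rw [hmu, add_div, Finset.sum_div]
  have e3 : 1 / Q / s + ∑ j ∈ k.properDivisors, ((DD p (n + 1) j).card : ℝ) *
      (1 / (p : ℝ) ^ j - 1 / Q) / s - (if Even k then 1 else 0) =
      1 / Q / s + ∑ j ∈ k.properDivisors, (((DD p (n + 1) j).card : ℝ) *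
      (1 / (p : ℝ) ^ j - 1 / Q) / s - (if 2 * j = k then 1 else 0)) := by
    rw [Finset.sum_sub_distrib, hsum1]
    ring
  rw [e3]
  have b3 : |1 / Q / s| ≤ 1 / √p := by
    rw [abs_of_nonneg (by positivity), div_div, div_le_div_iff₀ (by positivity) hsp0, one_mul,
      one_mul]
    calc √(p : ℝ) ≤ p := hspp
      _ ≤ Q := hpQ
      _ = Q * 1 := (mul_one _).symm
      _ ≤ Q * s := by gcongr
  have b4 := (Finset.abs_sum_le_sum_abs _ _).trans ((Finset.sum_le_sum hterm).trans hsum2)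
  refine (abs_add_le _ _).trans ((add_le_add b3 b4).trans ?_)
  rw [← add_div, ← add_div]
  refine div_le_div_of_nonneg_right ?_ hsp0.le
  linarith

end

end Pool.Agent.K1H81.HW
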